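import Mathlib

set_option autoImplicit false

/-!
Continuants: `pr w = (Q, α)` with `α/Q = [0; w]`, bounded type estimate.
-/

namespace Pool.Agent.R331.UL

def pr : List ℕ → ℕ × ℕ
  | [] => (1, 0)
  | a :: l => (a * (pr l).1 + (pr l).2, (pr l).1)

theorem pr_nil : pr [] = (1, 0) := rfl

theorem pr_cons (a : ℕ) (l : List ℕ) : pr (a :: l) = (a * (pr l).1 + (pr l).2, (pr l).1) := rfl

theorem pr_coprime (w : List ℕ) : Nat.Coprime (pr w).1 (pr w).2 := by
  induction w with
  | nil => simp [pr_nil]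
  | cons a l ih =>
    rw [pr_cons]
    show Nat.Coprime (a * (pr l).1 + (pr l).2) (pr l).1
    rw [Nat.coprime_mul_right_add_left]
    exact ih.symm

theorem pr_pos (w : List ℕ) (h : ∀ a ∈ w, 1 ≤ a) : 1 ≤ (pr w).1 := by
  induction w with
  | nil => simp [pr_nil]
  | cons a l ih =>
    rw [pr_cons]
    have h1 := ih (fun b hb => h b (List.mem_cons_of_mem _ hb))
    have h2 := h a List.mem_cons_self
    show 1 ≤ a * (pr l).1 + (pr l).2
    nlinarith

theorem pr_lt (w : List ℕ) (h : ∀ a ∈ w, 2 ≤ a) : (pr w).2 < (pr w).1 := by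
  cases w with
  | nil => simp [pr_nil]
  | cons a l =>
    rw [pr_cons]
    have h1 := pr_pos l (fun b hb => by have := h b (List.mem_cons_of_mem _ hb); omega)
    have h2 := h a List.mem_cons_self
    show (pr l).1 < a * (pr l).1 + (pr l).2
    nlinarith

theorem pr_lower {B : ℕ} (w : List ℕ) (h : ∀ a ∈ w, B ≤ a) : B ^ w.length ≤ (pr w).1 := by
  induction w with
  | nil => simp [pr_nil]
  | cons a l ih =>
    rw [pr_cons]
    have h1 := ih (fun b hb => h b (List.mem_cons_of_mem _ hb))
    have h2 := h a List.mem_cons_self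
    show B ^ (a :: l).length ≤ a * (pr l).1 + (pr l).2
    rw [List.length_cons, pow_succ, mul_comm]
    exact (Nat.mul_le_mul h2 h1).trans (Nat.le_add_right _ _)

theorem pr_upper {A : ℕ} (w : List ℕ) (h2 : ∀ a ∈ w, 2 ≤ a) (h : ∀ a ∈ w, a ≤ A) :
    (pr w).1 ≤ (A+1) ^ w.length := by
  induction w with
  | nil => simp [pr_nil]
  | cons a l ih =>
    rw [pr_cons]
    have h1 := ih (fun b hb => h2 b (List.mem_cons_of_mem _ hb)) (fun b hb => h b (List.mem_cons_of_mem _ hb))
    have h3 := h a List.mem_cons_self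
    have h4 := pr_lt l (fun b hb => h2 b (List.mem_cons_of_mem _ hb))
    show a * (pr l).1 + (pr l).2 ≤ (A+1) ^ (a :: l).length
    rw [List.length_cons, pow_succ]
    calc a * (pr l).1 + (pr l).2 ≤ (pr l).1 * (A + 1) := by nlinarith
      _ ≤ _ := Nat.mul_le_mul_right _ h1

theorem pr_inj (w w' : List ℕ) (hl : w.length = w'.length) (h : ∀ a ∈ w, 2 ≤ a) (h' : ∀ a ∈ w', 2 ≤ a)
    (he : pr w = pr w') : w = w' := by
  induction w generalizing w' with
  | nil =>
    cases w' with
    | nil => rfl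
    | cons a l => simp at hl
  | cons a l ih =>
    cases w' with
    | nil => simp at hl
    | cons b l' =>
      rw [pr_cons, pr_cons, Prod.mk.injEq] at he
      obtain ⟨h1, h2⟩ := he
      have hlt := pr_lt l (fun b hb => h b (List.mem_cons_of_mem _ hb))
      have hlt' := pr_lt l' (fun b hb => h' b (List.mem_cons_of_mem _ hb))
      have hpos : 0 < (pr l).1 := by omega
      rw [← h2] at h1 hlt'
      have e1 : (a * (pr l).1 + (pr l).2) / (pr l).1 = a := by
        rw [mul_comm, Nat.mul_add_div hpos, Nat.div_eq_of_lt hlt, add_zero]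
      have e2 : (b * (pr l).1 + (pr l').2) / (pr l).1 = b := by
        rw [mul_comm, Nat.mul_add_div hpos, Nat.div_eq_of_lt hlt', add_zero]
      have hab : a = b := by
        rw [← e1, ← e2, h1]
      subst hab
      have h3 : (pr l).2 = (pr l').2 := by omega
      have h4 : pr l = pr l' := Prod.ext h2 h3
      have := ih l' (by simpa using hl) (fun b hb => h b (List.mem_cons_of_mem _ hb))
        (fun b hb => h' b (List.mem_cons_of_mem _ hb)) h4
      rw [this]

/-- the matrix of a prefix -/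
theorem pr_append (u : List ℕ) : ∃ m11 m12 m21 m22 : ℤ,
    (m11 * m22 - m12 * m21 = 1 ∨ m11 * m22 - m12 * m21 = -1) ∧
    ∀ v : List ℕ, ((pr (u ++ v)).1 : ℤ) = m11 * (pr v).1 + m12 * (pr v).2 ∧
      ((pr (u ++ v)).2 : ℤ) = m21 * (pr v).1 + m22 * (pr v).2 := by
  induction u with
  | nil =>
    refine ⟨1, 0, 0, 1, Or.inl (by norm_num), fun v => ?_⟩
    simp
  | cons a u ih =>
    obtain ⟨m11, m12, m21, m22, hd, hv⟩ := ih
    refine ⟨a * m11 + m21, a * m12 + m22, m11, m12, ?_, fun v => ?_⟩
    · rcases hd with hd | hd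
      · right
        linear_combination -hd
      · left
        linear_combination -hd
    · obtain ⟨h1, h2⟩ := hv v
      rw [List.cons_append, pr_cons]
      simp only
      push_cast
      constructor
      · rw [h1, h2]
        ring
      · rw [h1]

/-- two suffixes of the same length with the same prefix and a common large prime divisor agree -/
theorem suffix_unique {A : ℕ} {p : ℕ} (hp : p.Prime) {j : ℕ} (hpj : (A+1)^(2*j) < p) (u v v' : List ℕ)
    (hv : v.length = j) (hv' : v'.length = j) (h2 : ∀ a ∈ v, 2 ≤ a) (h2' : ∀ a ∈ v', 2 ≤ a)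
    (hA : ∀ a ∈ v, a ≤ A) (hA' : ∀ a ∈ v', a ≤ A)
    (hd : p ∣ (pr (u ++ v)).1) (hd' : p ∣ (pr (u ++ v')).1) : v = v' := by
  obtain ⟨m11, m12, m21, m22, hdet, hm⟩ := pr_append u
  have e1 := (hm v).1
  have e1' := (hm v').1
  have d1 : (p:ℤ) ∣ m11 * (pr v).1 + m12 * (pr v).2 := by
    rw [← e1]
    exact_mod_cast hd
  have d1' : (p:ℤ) ∣ m11 * (pr v').1 + m12 * (pr v').2 := by
    rw [← e1']
    exact_mod_cast hd'
  have hpZ : Prime (p:ℤ) := Nat.prime_iff_prime_int.mp hp
  set q : ℤ := ((pr v).1 : ℤ) with hq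
  set al : ℤ := ((pr v).2 : ℤ) with hal
  set q' : ℤ := ((pr v').1 : ℤ) with hq'
  set al' : ℤ := ((pr v').2 : ℤ) with hal'
  have d2 : (p:ℤ) ∣ m11 * (q * al' - q' * al) := by
    have : m11 * (q * al' - q' * al) = (m11 * q + m12 * al) * al' - (m11 * q' + m12 * al') * al := by ring
    rw [this]
    exact dvd_sub (Dvd.dvd.mul_right d1 _) (Dvd.dvd.mul_right d1' _)
  have d3 : (p:ℤ) ∣ m12 * (q * al' - q' * al) := by
    have : m12 * (q * al' - q' * al) = (m11 * q' + m12 * al') * q - (m11 * q + m12 * al) * q' := by ring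
    rw [this]
    exact dvd_sub (Dvd.dvd.mul_right d1' _) (Dvd.dvd.mul_right d1 _)
  have d4 : (p:ℤ) ∣ q * al' - q' * al := by
    rcases hpZ.dvd_or_dvd d2 with h | h
    · rcases hpZ.dvd_or_dvd d3 with h' | h'
      · exfalso
        have : (p:ℤ) ∣ m11 * m22 - m12 * m21 := dvd_sub (Dvd.dvd.mul_right h _) (Dvd.dvd.mul_right h' _)
        rcases hdet with hdet | hdet
        · rw [hdet] at this
          exact hpZ.not_isUnit (isUnit_of_dvd_one this)
        · rw [hdet] at this
          exact hpZ.not_isUnit (isUnit_of_dvd_one ((dvd_neg).mp this))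
      · exact h'
    · exact h
  have hlt := pr_lt v h2
  have hlt' := pr_lt v' h2'
  have hup := pr_upper v h2 hA
  have hup' := pr_upper v' h2' hA'
  rw [hv] at hup
  rw [hv'] at hup'
  have hzero : q * al' - q' * al = 0 := by
    apply Int.eq_zero_of_abs_lt_dvd d4
    have hP : ((A+1)^j * (A+1)^j : ℤ) < p := by
      have : (A+1)^j * (A+1)^j < p := by
        rw [← pow_add, ← two_mul]
        exact hpj
      exact_mod_cast this
    have a1 : 0 ≤ q := by positivity
    have a2 : 0 ≤ q' := by positivity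
    have a3 : 0 ≤ al := by positivity
    have a4 : 0 ≤ al' := by positivity
    have b1 : q ≤ (A+1)^j := by rw [hq]; exact_mod_cast hup
    have b2 : q' ≤ (A+1)^j := by rw [hq']; exact_mod_cast hup'
    have b3 : al < q := by rw [hq, hal]; exact_mod_cast hlt
    have b4 : al' < q' := by rw [hq', hal']; exact_mod_cast hlt'
    have c1 : q * al' ≤ (A+1)^j * (A+1)^j := by
      apply mul_le_mul b1 (b4.le.trans b2) a4 (by positivity)
    have c2 : q' * al ≤ (A+1)^j * (A+1)^j := by
      apply mul_le_mul b2 (b3.le.trans b1) a3 (by positivity)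
    have c3 : 0 ≤ q * al' := mul_nonneg a1 a4
    have c4 : 0 ≤ q' * al := mul_nonneg a2 a3
    rw [abs_lt]
    constructor <;> linarith
  have hN : (pr v).1 * (pr v').2 = (pr v').1 * (pr v).2 := by
    have : q * al' = q' * al := by linarith
    rw [hq, hal', hq', hal] at this
    exact_mod_cast this
  have c1 := pr_coprime v
  have c2 := pr_coprime v'
  have f1 : (pr v).1 ∣ (pr v').1 := by
    have : (pr v).1 ∣ (pr v').1 * (pr v).2 := by
      rw [← hN]
      exact dvd_mul_right _ _
    exact c1.dvd_of_dvd_mul_right this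
  have f2 : (pr v').1 ∣ (pr v).1 := by
    have : (pr v').1 ∣ (pr v).1 * (pr v').2 := by
      rw [hN]
      exact dvd_mul_right _ _
    exact c2.dvd_of_dvd_mul_right this
  have f3 : (pr v).1 = (pr v').1 := Nat.dvd_antisymm f1 f2
  have f4 : (pr v).2 = (pr v').2 := by
    rw [f3] at hN
    have : 0 < (pr v').1 := by omega
    exact (Nat.eq_of_mul_eq_mul_left this hN).symm
  exact pr_inj v v' (by rw [hv, hv']) h2 h2' (Prod.ext f3 f4)

theorem bt_direct (A : ℤ) (hA0 : 0 ≤ A) (q al m11 m12 X Y k : ℤ) (hal : 0 ≤ al) (halq : al ≤ q) (hq : 1 ≤ q)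
    (h0 : 0 ≤ m12) (h12 : m12 ≤ m11) (hk : k = m11 * Y - m12 * X ∨ k = m12 * X - m11 * Y) (hk0 : k ≠ 0)
    (hm12 : m12 ≤ |k|) (hlt : |k| < m11) (hm : m11 ≤ (A+1) * m12) :
    m11 * q + m12 * al ≤ (A+2) * |k| * |X * q + Y * al| := by
  have ht : |m11 * Y - m12 * X| = |k| := by
    rcases hk with h | h
    · rw [h]
    · rw [h, ← abs_neg]
      congr 1
      ring
  have ht0 : m11 * Y - m12 * X ≠ 0 := by
    intro h
    rw [h, abs_zero] at ht
    exact hk0 (abs_eq_zero.mp ht.symm)
  have hlt' : |m11 * Y - m12 * X| < m11 := by rw [ht]; exact hlt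
  rw [abs_lt] at hlt'
  have hkey : q ≤ |X * q + Y * al| := by
    rcases lt_trichotomy Y 0 with hY | hY | hY
    · have hX : X ≤ -1 := by
        by_contra hX
        push Not at hX
        nlinarith [mul_nonneg h0 (show 0 ≤ X by omega), mul_nonneg (show 0 ≤ m11 by omega) (show 0 ≤ -1 - Y by omega)]
      rw [← abs_neg]
      refine le_trans ?_ (le_abs_self _)
      nlinarith [mul_nonneg (show 0 ≤ -1 - X by omega) (show 0 ≤ q by omega), mul_nonneg (show 0 ≤ -Y by omega) hal]
    · subst hY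
      have hX : X ≠ 0 := by
        rintro rfl
        apply ht0
        ring
      rw [zero_mul, add_zero, abs_mul, abs_of_nonneg (show 0 ≤ q by omega)]
      have : 1 ≤ |X| := Int.one_le_abs hX
      nlinarith
    · have hX : 1 ≤ X := by
        by_contra hX
        push Not at hX
        nlinarith [mul_nonneg h0 (show 0 ≤ -X by omega), mul_nonneg (show 0 ≤ m11 by omega) (show 0 ≤ Y - 1 by omega)]
      refine le_trans ?_ (le_abs_self _)
      nlinarith [mul_nonneg (show 0 ≤ X - 1 by omega) (show 0 ≤ q by omega), mul_nonneg (show 0 ≤ Y by omega) hal]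
  calc m11 * q + m12 * al ≤ (A + 2) * m12 * q := by
        nlinarith [mul_le_mul_of_nonneg_right hm (show 0 ≤ q by omega), mul_le_mul_of_nonneg_left halq h0]
    _ ≤ (A + 2) * |k| * q := by
        apply mul_le_mul_of_nonneg_right _ (by omega)
        apply mul_le_mul_of_nonneg_left hm12 (by omega)
    _ ≤ _ := by
        apply mul_le_mul_of_nonneg_left hkey
        positivity

theorem bt_aux (A : ℕ) (v : List ℕ) (h1 : ∀ a ∈ v, 2 ≤ a) (hA : ∀ a ∈ v, a ≤ A) :
    ∀ m11 m12 X Y k : ℤ, 0 ≤ m12 → m12 ≤ m11 → (k = m11 * Y - m12 * X ∨ k = m12 * X - m11 * Y) → k ≠ 0 →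
      m12 ≤ |k| → (m11 ≤ (A+1) * m12 ∨ m11 ≤ |k|) → |k| < m11 * (pr v).1 + m12 * (pr v).2 →
      m11 * (pr v).1 + m12 * (pr v).2 ≤ (A+2) * |k| * |X * (pr v).1 + Y * (pr v).2| := by
  induction v with
  | nil =>
    intro m11 m12 X Y k h0 h12 hk hk0 hm12 hm11 hlt
    have hlt' : |k| < m11 := by
      rw [pr_nil] at hlt
      simpa using hlt
    refine bt_direct A (by positivity) _ _ m11 m12 X Y k (by positivity) ?_ ?_ h0 h12 hk hk0 hm12 hlt' ?_
    · rw [pr_nil]
      norm_num
    · rw [pr_nil]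
      norm_num
    · rcases hm11 with h | h
      · exact h
      · exact absurd hlt' (not_lt.mpr h)
  | cons a v ih =>
    intro m11 m12 X Y k h0 h12 hk hk0 hm12 hm11 hlt
    rcases lt_or_ge |k| m11 with hc | hc
    · have e1 := pr_lt _ h1
      have e2 := pr_pos _ (fun b hb => by have := h1 b hb; omega)
      refine bt_direct A (by positivity) _ _ m11 m12 X Y k (by positivity) ?_ ?_ h0 h12 hk hk0 hm12 hc ?_
      · exact_mod_cast e1.le
      · exact_mod_cast e2
      · rcases hm11 with h | h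
        · exact h
        · exact absurd hc (not_lt.mpr h)
    · have ha := h1 a List.mem_cons_self
      have haA := hA a List.mem_cons_self
      have hm0 : 0 ≤ m11 := h0.trans h12
      have ha' : (2:ℤ) ≤ a := by exact_mod_cast ha
      have haA' : (a:ℤ) ≤ A := by exact_mod_cast haA
      have e1 : m11 * ((pr (a :: v)).1 : ℤ) + m12 * ((pr (a :: v)).2 : ℤ) =
          (a * m11 + m12) * ((pr v).1 : ℤ) + m11 * ((pr v).2 : ℤ) := by
        rw [pr_cons]
        push_cast
        ring
      have e2 : X * ((pr (a :: v)).1 : ℤ) + Y * ((pr (a :: v)).2 : ℤ) =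
          (a * X + Y) * ((pr v).1 : ℤ) + X * ((pr v).2 : ℤ) := by
        rw [pr_cons]
        push_cast
        ring
      rw [e1] at hlt ⊢
      rw [e2]
      refine ih (fun b hb => h1 b (List.mem_cons_of_mem _ hb)) (fun b hb => hA b (List.mem_cons_of_mem _ hb))
        (a * m11 + m12) m11 (a * X + Y) X k hm0 ?_ ?_ hk0 hc ?_ hlt
      · nlinarith
      · rcases hk with h | h
        · right
          rw [h]
          ring
        · left
          rw [h]
          ring
      · left
        nlinarith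

/-- bounded type estimate -/
theorem bt (A : ℕ) (w : List ℕ) (h1 : ∀ a ∈ w, 2 ≤ a) (hA : ∀ a ∈ w, a ≤ A) (k h : ℤ) (hk0 : k ≠ 0)
    (hk : |k| < (pr w).1) : ((pr w).1 : ℤ) ≤ (A+2) * |k| * |k * (pr w).2 - h * (pr w).1| := by
  have := bt_aux A w h1 hA 1 0 (-h) k k le_rfl zero_le_one (Or.inl (by ring)) hk0 (abs_nonneg k)
    (Or.inr (Int.one_le_abs hk0)) (by simpa using hk)
  have e : -h * ((pr w).1 : ℤ) + k * ((pr w).2 : ℤ) = k * (pr w).2 - h * (pr w).1 := by ring
  rw [e] at this
  simpa using this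

end Pool.Agent.R331.UL
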