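import Pool.Agent.R331.UL.Prob

set_option autoImplicit false

/-!
For a good word the numerators which are not coprime to the continuant are few.
-/

namespace Pool.Agent.R331.UL

open Finset

theorem sq_le_pow (k : ℕ) : k^2 ≤ 4 * 2^k := by
  induction k with
  | zero => norm_num
  | succ k ih =>
    rcases Nat.lt_or_ge k 3 with h | h
    · interval_cases k <;> norm_num
    · rw [pow_succ 2]
      nlinarith

theorem cop_count {ε : ℝ} {j₀ n : ℕ} {w : List ℕ} (hw : w ∈ Good ε j₀ n) (m : ℕ) (hm : m = (163^(2*j₀)).factorial) :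
    ∃ K : ℕ, K^2 ≤ 4 * (pr w).1 ∧
    (((range (pr w).1).filter (fun a => 1 + m * a < (pr w).1 ∧ ¬ Nat.Coprime (1 + m * a) (pr w).1)).card : ℝ) ≤
      ((pr w).1 : ℝ) / m * ε + K := by
  classical
  obtain ⟨hwd, hbs⟩ := mem_Good.mp hw
  set Q := (pr w).1 with hQ
  have hQpos : 1 ≤ Q := pr_pos w (fun a ha => by have := Wd_two hwd a ha; omega)
  have hmpos : 0 < m := by rw [hm]; exact Nat.factorial_pos _
  set P := (Ioc (163^(2*j₀)) (163^(2*n))).filter (fun p => p.Prime ∧ p ∣ Q) with hP
  have hPm : ∀ p ∈ P, ∀ a, p ∣ 1 + m * a → ¬ p ∣ m := by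
    intro p hp a h1 h2
    rw [hP, mem_filter] at hp
    have : p ∣ 1 := by
      rwa [Nat.dvd_add_left (Dvd.dvd.mul_right h2 a)] at h1
    exact hp.2.1.one_lt.ne' (Nat.dvd_one.mp this)
  have hsub : (range Q).filter (fun a => 1 + m * a < Q ∧ ¬ Nat.Coprime (1 + m * a) Q) ⊆
      P.biUnion (fun p => (range Q).filter (fun a => 1 + m * a < Q ∧ p ∣ 1 + m * a)) := by
    intro a ha
    rw [mem_filter] at ha
    obtain ⟨ha1, ha2, ha3⟩ := ha
    obtain ⟨p, hp, hp1, hp2⟩ := Nat.Prime.not_coprime_iff_dvd.mp ha3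
    rw [mem_biUnion]
    refine ⟨p, ?_, mem_filter.mpr ⟨ha1, ha2, hp1⟩⟩
    rw [hP, mem_filter, mem_Ioc]
    refine ⟨⟨?_, ?_⟩, hp, hp2⟩
    · by_contra hcon
      push Not at hcon
      have h1 : p ∣ m := by
        rw [hm]
        exact Nat.dvd_factorial hp.pos hcon
      have : p ∣ 1 := by
        rwa [Nat.dvd_add_left (Dvd.dvd.mul_right h1 a)] at hp1
      exact hp.one_lt.ne' (Nat.dvd_one.mp this)
    · calc p ≤ Q := Nat.le_of_dvd (by omega) hp2
        _ ≤ 163^n := Wd_upper hwd
        _ ≤ 163^(2*n) := Nat.pow_le_pow_right (by norm_num) (by omega)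
  have hone : ∀ p ∈ P, ((range Q).filter (fun a => 1 + m * a < Q ∧ p ∣ 1 + m * a)).card ≤ Q / (m * p) + 1 := by
    intro p hp
    have hpp : p.Prime := by
      rw [hP, mem_filter] at hp
      exact hp.2.1
    rw [← card_range (Q / (m * p) + 1)]
    apply card_le_card_of_injOn (fun a => a / p)
    · intro a ha
      rw [coe_filter, Set.mem_ofPred_eq] at ha
      rw [coe_range, Set.mem_Iio]
      have h1 : a ≤ Q / m := by
        rw [Nat.le_div_iff_mul_le hmpos, mul_comm]
        omega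
      have h2 : a / p ≤ Q / m / p := Nat.div_le_div_right h1
      rw [Nat.div_div_eq_div_mul] at h2
      show a / p < Q / (m * p) + 1
      omega
    · intro a ha b hb hab
      rw [coe_filter, Set.mem_ofPred_eq] at ha hb
      simp only at hab
      have hd : (p:ℤ) ∣ (m:ℤ) * ((a:ℤ) - b) := by
        have h1 : (p:ℤ) ∣ ((1 + m * a : ℕ) : ℤ) := by exact_mod_cast ha.2.2
        have h2 : (p:ℤ) ∣ ((1 + m * b : ℕ) : ℤ) := by exact_mod_cast hb.2.2
        have h3 := dvd_sub h1 h2
        have e : ((1 + m * a : ℕ) : ℤ) - ((1 + m * b : ℕ) : ℤ) = (m:ℤ) * ((a:ℤ) - b) := by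
          push_cast
          ring
        rwa [e] at h3
      have hd2 : (p:ℤ) ∣ (a:ℤ) - b := by
        rcases (Nat.prime_iff_prime_int.mp hpp).dvd_or_dvd hd with h | h
        · exact absurd (by exact_mod_cast h) (hPm p hp a ha.2.2)
        · exact h
      have hmod : a % p = b % p := by
        have : b ≡ a [MOD p] := (Nat.modEq_iff_dvd).mpr hd2
        exact this.symm
      rw [← Nat.div_add_mod a p, ← Nat.div_add_mod b p, hab, hmod]
  refine ⟨P.card, ?_, ?_⟩
  · refine (sq_le_pow _).trans (Nat.mul_le_mul_left 4 ?_)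
    have h1 : ∏ p ∈ P, p ∣ Q := by
      apply Finset.prod_primes_dvd
      · intro p hp
        rw [hP, mem_filter] at hp
        exact hp.2.1.prime
      · intro p hp
        rw [hP, mem_filter] at hp
        exact hp.2.2
    have h2 := Nat.le_of_dvd (by omega) h1
    refine le_trans ?_ h2
    rw [← prod_const]
    apply Finset.prod_le_prod'
    intro p hp
    rw [hP, mem_filter] at hp
    exact hp.2.1.two_le
  · have h1 : ((range Q).filter (fun a => 1 + m * a < Q ∧ ¬ Nat.Coprime (1 + m * a) Q)).card ≤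
        ∑ p ∈ P, (Q / (m * p) + 1) :=
      (card_le_card hsub).trans (card_biUnion_le.trans (sum_le_sum hone))
    calc (((range Q).filter (fun a => 1 + m * a < Q ∧ ¬ Nat.Coprime (1 + m * a) Q)).card : ℝ)
        ≤ ((∑ p ∈ P, (Q / (m * p) + 1) : ℕ) : ℝ) := by exact_mod_cast h1
      _ = ∑ p ∈ P, (((Q / (m * p) : ℕ) : ℝ) + 1) := by push_cast; rfl
      _ ≤ ∑ p ∈ P, ((Q:ℝ) / m * (1 / p) + 1) := by
          apply sum_le_sum
          intro p _
          have : ((Q / (m * p) : ℕ) : ℝ) ≤ (Q:ℝ) / ((m * p : ℕ) : ℝ) := Nat.cast_div_le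
          have e : (Q:ℝ) / ((m * p : ℕ) : ℝ) = (Q:ℝ) / m * (1 / p) := by
            push_cast
            rw [div_mul_div_comm, mul_one]
          rw [e] at this
          linarith
      _ = (Q:ℝ) / m * bs j₀ n w + P.card := by
          rw [sum_add_distrib, ← mul_sum, sum_const, nsmul_eq_mul, mul_one]
          rfl
      _ ≤ _ := by
          have : (0:ℝ) ≤ (Q:ℝ) / m := by positivity
          have := mul_le_mul_of_nonneg_left hbs this
          linarith

end Pool.Agent.R331.UL
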