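import Pool.Agent.R331.UL.Cont

set_option autoImplicit false

/-!
Words with letters in `[81,162]`; most of them have continuants with few large prime divisors.
-/

namespace Pool.Agent.R331.UL

open Finset

/-- words of length `n` with letters in `[81,162]` -/
def Wd : ℕ → Finset (List ℕ)
  | 0 => {[]}
  | n+1 => ((Icc 81 162) ×ˢ Wd n).image (fun x => x.1 :: x.2)

theorem mem_Wd {n : ℕ} {w : List ℕ} : w ∈ Wd n ↔ w.length = n ∧ ∀ a ∈ w, 81 ≤ a ∧ a ≤ 162 := by
  induction n generalizing w with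
  | zero =>
    unfold Wd
    rw [mem_singleton, List.length_eq_zero_iff]
    constructor
    · rintro rfl
      simp
    · exact fun h => h.1
  | succ n ih =>
    unfold Wd
    rw [mem_image]
    constructor
    · rintro ⟨⟨a, l⟩, h, rfl⟩
      rw [mem_product, mem_Icc] at h
      have := ih.mp h.2
      simp only at h this ⊢
      refine ⟨by rw [List.length_cons, this.1], ?_⟩
      intro b hb
      rcases List.mem_cons.mp hb with rfl | hb
      · exact h.1
      · exact this.2 b hb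
    · rintro ⟨h1, h2⟩
      cases w with
      | nil => simp at h1
      | cons a l =>
        refine ⟨(a, l), ?_, rfl⟩
        rw [mem_product, mem_Icc]
        exact ⟨h2 a List.mem_cons_self, ih.mpr ⟨by simpa using h1, fun b hb => h2 b (List.mem_cons_of_mem _ hb)⟩⟩

theorem card_Wd (n : ℕ) : (Wd n).card = 82^n := by
  induction n with
  | zero => simp [Wd]
  | succ n ih =>
    unfold Wd
    rw [card_image_of_injective, card_product, ih, Nat.card_Icc, pow_succ]
    · norm_num
      ring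
    · rintro ⟨a, l⟩ ⟨b, l'⟩ h
      simp only [List.cons.injEq] at h
      rw [h.1, h.2]

theorem Wd_two {n : ℕ} {w : List ℕ} (h : w ∈ Wd n) : ∀ a ∈ w, 2 ≤ a := fun a ha => by
  have := (mem_Wd.mp h).2 a ha
  omega

theorem Wd_le {n : ℕ} {w : List ℕ} (h : w ∈ Wd n) : ∀ a ∈ w, a ≤ 162 := fun a ha => by
  have := (mem_Wd.mp h).2 a ha
  omega

theorem Wd_lower {n : ℕ} {w : List ℕ} (h : w ∈ Wd n) : 81^n ≤ (pr w).1 := by
  have := pr_lower (B := 81) w (fun a ha => ((mem_Wd.mp h).2 a ha).1)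
  rwa [(mem_Wd.mp h).1] at this

theorem Wd_upper {n : ℕ} {w : List ℕ} (h : w ∈ Wd n) : (pr w).1 ≤ 163^n := by
  have := pr_upper (A := 162) w (Wd_two h) (Wd_le h)
  rwa [(mem_Wd.mp h).1] at this

theorem count_dvd {n j p : ℕ} (hp : p.Prime) (hj : j ≤ n) (hpj : 163^(2*j) < p) :
    ((Wd n).filter (fun w => p ∣ (pr w).1)).card ≤ 82^(n-j) := by
  rw [← card_Wd]
  apply card_le_card_of_injOn (fun w => w.take (n-j))
  · intro w hw
    rw [coe_filter, Set.mem_setOf_eq] at hw
    have h1 := mem_Wd.mp hw.1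
    rw [mem_coe, mem_Wd]
    refine ⟨?_, fun a ha => h1.2 a (List.mem_of_mem_take ha)⟩
    show (w.take (n-j)).length = n - j
    rw [List.length_take, h1.1]
    omega
  · intro w hw w' hw' he
    rw [coe_filter, Set.mem_setOf_eq] at hw hw'
    have h1 := mem_Wd.mp hw.1
    have h1' := mem_Wd.mp hw'.1
    simp only at he
    have e1 : w.take (n-j) ++ w.drop (n-j) = w := List.take_append_drop _ _
    have e2 : w.take (n-j) ++ w'.drop (n-j) = w' := by
      rw [he]
      exact List.take_append_drop _ _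
    have hs := suffix_unique (A := 162) hp hpj (w.take (n-j)) (w.drop (n-j)) (w'.drop (n-j))
      (by rw [List.length_drop, h1.1]; omega) (by rw [List.length_drop, h1'.1]; omega)
      (fun a ha => Wd_two hw.1 a (List.mem_of_mem_drop ha)) (fun a ha => Wd_two hw'.1 a (List.mem_of_mem_drop ha))
      (fun a ha => Wd_le hw.1 a (List.mem_of_mem_drop ha)) (fun a ha => Wd_le hw'.1 a (List.mem_of_mem_drop ha))
      (by rw [e1]; exact hw.2) (by rw [e2]; exact hw'.2)
    rw [← e1, ← e2, hs]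

/-- sum of reciprocals of large prime divisors of the continuant -/
noncomputable def bs (j₀ n : ℕ) (w : List ℕ) : ℝ :=
  ∑ p ∈ (Ioc (163^(2*j₀)) (163^(2*n))).filter (fun p => p.Prime ∧ p ∣ (pr w).1), (1/(p:ℝ))

theorem bs_nonneg (j₀ n : ℕ) (w : List ℕ) : 0 ≤ bs j₀ n w := sum_nonneg fun p _ => by positivity

theorem sum_bs {j₀ n : ℕ} (h : j₀ ≤ n) :
    ∑ w ∈ Wd n, bs j₀ n w ≤ 2 * 163^2 * 82^n / 82^j₀ := by
  classical
  set g : ℕ → ℝ := fun p => if p.Prime then (((Wd n).filter (fun w => p ∣ (pr w).1)).card : ℝ) * (1/(p:ℝ)) else 0 with hg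
  have e1 : ∑ w ∈ Wd n, bs j₀ n w = ∑ p ∈ Ioc (163^(2*j₀)) (163^(2*n)), g p := by
    unfold bs
    simp_rw [sum_filter]
    rw [sum_comm]
    apply sum_congr rfl
    intro p _
    rw [hg]
    simp only
    by_cases hp : p.Prime
    · simp only [hp, true_and, if_true]
      rw [← sum_filter, sum_const, nsmul_eq_mul]
    · simp [hp]
  rw [e1]
  have key : ∀ m, j₀ ≤ m → m ≤ n → ∑ p ∈ Ioc (163^(2*j₀)) (163^(2*m)), g p ≤
      2 * 163^2 * 82^n * (1 / 82^j₀ - 1 / 82^m) := by
    intro m hm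
    induction m, hm using Nat.le_induction with
    | base =>
      intro _
      simp
    | succ m hm ih =>
      intro hmn
      have h1 := ih (by omega)
      rw [← sum_Ioc_consecutive g (Nat.pow_le_pow_right (by norm_num) (by omega : 2*j₀ ≤ 2*m))
        (Nat.pow_le_pow_right (by norm_num) (by omega : 2*m ≤ 2*(m+1)))]
      have h2 : ∑ p ∈ Ioc (163^(2*m)) (163^(2*(m+1))), g p ≤ 163^2 * 82^n * (1/82^m) := by
        have h3 : ∀ p ∈ Ioc (163^(2*m)) (163^(2*(m+1))), g p ≤ (82^(n-m) : ℝ) * (1/163^(2*m)) := by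
          intro p hp
          rw [mem_Ioc] at hp
          rw [hg]
          simp only
          split_ifs with hpp
          · have h4 := count_dvd hpp (by omega : m ≤ n) hp.1
            have h5 : (((Wd n).filter (fun w => p ∣ (pr w).1)).card : ℝ) ≤ 82^(n-m) := by exact_mod_cast h4
            have h6 : (163^(2*m) : ℝ) ≤ p := by exact_mod_cast hp.1.le
            apply mul_le_mul h5 _ (by positivity) (by positivity)
            apply one_div_le_one_div_of_le (by positivity) h6
          · positivity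
        refine (sum_le_sum h3).trans ?_
        rw [sum_const, nsmul_eq_mul, Nat.card_Ioc]
        have h4 : ((163^(2*(m+1)) - 163^(2*m) : ℕ) : ℝ) ≤ 163^(2*(m+1)) := by
          have : 163^(2*(m+1)) - 163^(2*m) ≤ 163^(2*(m+1)) := Nat.sub_le _ _
          exact_mod_cast this
        have h5 : (82:ℝ)^n = 82^(n-m) * 82^m := by
          rw [← pow_add]
          congr 1
          omega
        calc ((163^(2*(m+1)) - 163^(2*m) : ℕ) : ℝ) * ((82^(n-m) : ℝ) * (1/163^(2*m)))
            ≤ 163^(2*(m+1)) * ((82^(n-m) : ℝ) * (1/163^(2*m))) := by gcongr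
          _ = 163^2 * 82^n * (1/82^m) := by
              rw [h5, mul_add, pow_add]
              field_simp
      have h7 : (2:ℝ) * 163^2 * 82^n * (1 / 82^j₀ - 1 / 82^(m+1)) =
          2 * 163^2 * 82^n * (1 / 82^j₀ - 1 / 82^m) + 2 * 163^2 * 82^n * (1/82^m) * (81/82) := by
        rw [pow_succ]
        field_simp
        ring
      rw [h7]
      have h8 : (0:ℝ) ≤ 163^2 * 82^n * (1/82^m) := by positivity
      nlinarith
  refine (key n h le_rfl).trans ?_
  have : (2:ℝ) * 163^2 * 82^n / 82^j₀ = 2 * 163^2 * 82^n * (1/82^j₀) := by ring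
  rw [this]
  apply mul_le_mul_of_nonneg_left _ (by positivity)
  have : (0:ℝ) ≤ 1/82^n := by positivity
  linarith

/-- good words -/
noncomputable def Good (ε : ℝ) (j₀ n : ℕ) : Finset (List ℕ) := by
  classical exact (Wd n).filter (fun w => bs j₀ n w ≤ ε)

theorem mem_Good {ε : ℝ} {j₀ n : ℕ} {w : List ℕ} : w ∈ Good ε j₀ n ↔ w ∈ Wd n ∧ bs j₀ n w ≤ ε := by
  classical
  unfold Good
  rw [mem_filter]

theorem card_Good {ε : ℝ} (hε : 0 < ε) {j₀ n : ℕ} (h : j₀ ≤ n) (hj : 4 * 163^2 ≤ ε * 82^j₀) :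
    (82:ℝ)^n / 2 ≤ ((Good ε j₀ n).card : ℝ) := by
  classical
  have h1 : ((Wd n).filter (fun w => bs j₀ n w ≤ ε)).card + ((Wd n).filter (fun w => ¬ bs j₀ n w ≤ ε)).card = 82^n := by
    rw [card_filter_add_card_filter_not, card_Wd]
  have h2 : (((Wd n).filter (fun w => ¬ bs j₀ n w ≤ ε)).card : ℝ) * ε ≤ ∑ w ∈ Wd n, bs j₀ n w := by
    rw [← nsmul_eq_mul, ← sum_const]
    calc ∑ _w ∈ (Wd n).filter (fun w => ¬ bs j₀ n w ≤ ε), ε ≤ ∑ w ∈ (Wd n).filter (fun w => ¬ bs j₀ n w ≤ ε), bs j₀ n w := by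
          apply sum_le_sum
          intro w hw
          rw [mem_filter] at hw
          linarith [hw.2]
      _ ≤ _ := sum_le_sum_of_subset_of_nonneg (filter_subset _ _) (fun w _ _ => bs_nonneg _ _ _)
  have h3 := h2.trans (sum_bs h)
  have h4 : (Good ε j₀ n).card = ((Wd n).filter (fun w => bs j₀ n w ≤ ε)).card := by
    unfold Good
    rfl
  have h5 : (2:ℝ) * 163^2 * 82^n / 82^j₀ ≤ ε * (82^n/2) := by
    rw [div_le_iff₀ (by positivity)]
    have : (0:ℝ) ≤ 82^n := by positivity
    nlinarith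
  have h6 : (((Wd n).filter (fun w => ¬ bs j₀ n w ≤ ε)).card : ℝ) ≤ 82^n/2 := by
    have := h3.trans h5
    rw [mul_comm] at this
    exact le_of_mul_le_mul_left this hε
  have h7 : (((Wd n).filter (fun w => bs j₀ n w ≤ ε)).card : ℝ) + ((Wd n).filter (fun w => ¬ bs j₀ n w ≤ ε)).card = 82^n := by
    exact_mod_cast h1
  rw [h4]
  linarith

end Pool.Agent.R331.UL
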