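import Pool.Agent.R331.UL.Kron
import Pool.Agent.R331.UL.Prob

set_option autoImplicit false

/-!
Upper bounds for the number of points in small squares.
-/

namespace Pool.Agent.R331.UL

open Finset

theorem icc_card {x y : ℝ} (hx : 0 ≤ x) (hxy : x ≤ y) : ((Icc ⌊x⌋₊ ⌊y⌋₊).card : ℝ) ≤ y - x + 2 := by
  rw [Nat.card_Icc]
  have h1 : ⌊x⌋₊ ≤ ⌊y⌋₊ := Nat.floor_le_floor hxy
  rw [Nat.cast_sub (by omega)]
  push_cast
  have h2 := Nat.floor_le (hx.trans hxy)
  have h3 := Nat.lt_floor_add_one x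
  linarith

theorem floor_ne {x y : ℝ} (hx : 0 ≤ x) (h : x + 1 ≤ y) : ⌊x⌋₊ ≠ ⌊y⌋₊ := by
  have h1 : ⌊x + 1⌋₊ ≤ ⌊y⌋₊ := Nat.floor_le_floor h
  rw [Nat.floor_add_one hx] at h1
  omega

/-- the gap argument inside one word -/
theorem gap_step (w : List ℕ) (h2 : ∀ a ∈ w, 2 ≤ a) (hA : ∀ a ∈ w, a ≤ 162) {p : Ix} (hp : D2 p ⊆ Sq)
    {a b : ℕ} (hab : b < a) (ha : ptw w a ∈ D2 p) (hb : ptw w b ∈ D2 p) :
    164 * (1/2^p.1) * (b:ℝ) + 1 ≤ 164 * (1/2^p.1) * (a:ℝ) := by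
  have hQ1 : 1 ≤ (pr w).1 := pr_pos w (fun a ha => by have := h2 a ha; omega)
  rw [mem_D2_iff] at ha hb
  set Q := (pr w).1 with hQ
  set α := (pr w).2 with hα
  have hQ0 : (0:ℝ) < Q := by exact_mod_cast hQ1
  set r : ℝ := 1/2^p.1 with hr
  have hr0 : 0 < r := by positivity
  have hr1 : r ≤ 1 := by
    rw [hr, div_le_one (by positivity)]
    exact one_le_pow₀ (by norm_num)
  obtain ⟨⟨ha1, ha2⟩, ⟨ha3, ha4⟩⟩ := ha
  obtain ⟨⟨hb1, hb2⟩, ⟨hb3, hb4⟩⟩ := hb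
  have e1 : ∀ c : ℕ, (ptw w c).1 = (c:ℝ)/Q := fun c => rfl
  have e2 : ∀ c : ℕ, (ptw w c).2 = Int.fract ((α:ℝ) * c / Q) := fun c => rfl
  rw [e1] at ha1 ha2 hb1 hb2
  rw [e2] at ha3 ha4 hb3 hb4
  have habr : (b:ℝ) < a := by exact_mod_cast hab
  have h3 : (a:ℝ)/Q - b/Q < r := by linarith
  have h4 : (a:ℝ) - b < r * Q := by
    rw [← sub_div, div_lt_iff₀ hQ0] at h3
    exact h3
  set k : ℤ := (a:ℤ) - b with hk
  have hk0 : 0 < k := by omega
  have hkr : (k:ℝ) = (a:ℝ) - b := by rw [hk]; push_cast; rfl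
  have hkQ : |k| < (Q:ℤ) := by
    rw [abs_of_pos hk0]
    have : (k:ℝ) < Q := by
      rw [hkr]
      nlinarith
    exact_mod_cast this
  set N : ℤ := ⌊(α:ℝ) * a / Q⌋ - ⌊(α:ℝ) * b / Q⌋ with hN
  have h5 : |(k:ℝ) * α - N * Q| < r * Q := by
    have e : (k:ℝ) * α - N * Q = (Int.fract ((α:ℝ) * a / Q) - Int.fract ((α:ℝ) * b / Q)) * Q := by
      rw [hN, hkr, Int.fract, Int.fract]
      push_cast
      field_simp
      ring
    rw [e, abs_mul, abs_of_pos hQ0]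
    apply mul_lt_mul_of_pos_right _ hQ0
    rw [abs_lt]
    constructor <;> linarith
  have h6 := bt 162 w h2 hA k N hk0.ne' hkQ
  rw [abs_of_pos hk0] at h6
  have h7 : (Q:ℝ) ≤ 164 * k * |(k:ℝ) * α - N * Q| := by
    have h5' : ((Q:ℤ):ℝ) ≤ (((162 + 2) * k * |k * (α:ℤ) - N * (Q:ℤ)| : ℤ) : ℝ) := by
      exact_mod_cast h6
    push_cast at h5'
    exact h5'
  have hkpos : (0:ℝ) < k := by exact_mod_cast hk0
  have h8 : (Q:ℝ) < 164 * k * (r * Q) := lt_of_le_of_lt h7 (by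
    apply mul_lt_mul_of_pos_left h5
    positivity)
  have h9 : 1 < 164 * k * r := by
    by_contra hcon
    push Not at hcon
    have := mul_le_mul_of_nonneg_right hcon hQ0.le
    linarith
  rw [hkr] at h9
  linarith

theorem gap_count (w : List ℕ) (h2 : ∀ a ∈ w, 2 ≤ a) (hA : ∀ a ∈ w, a ≤ 162) (m : ℕ) (hm : 1 ≤ m) (p : Ix)
    (hp : D2 p ⊆ Sq) [DecidablePred (fun a : ℕ => ptw w (1+m*a) ∈ D2 p)] :
    (((range (pr w).1).filter (fun a : ℕ => ptw w (1+m*a) ∈ D2 p)).card : ℝ) ≤ 164 * (1/2^p.1)^2 * (pr w).1 + 2 := by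
  classical
  have hQ1 : 1 ≤ (pr w).1 := pr_pos w (fun a ha => by have := h2 a ha; omega)
  have hQ0 : (0:ℝ) < (pr w).1 := by exact_mod_cast hQ1
  set r : ℝ := 1/2^p.1 with hr
  have hr0 : 0 < r := by positivity
  set x0 : ℝ := (p.2.1:ℝ) / 2^p.1 with hx0
  have hx00 : 0 ≤ x0 := by positivity
  have hcard : ((range (pr w).1).filter (fun a : ℕ => ptw w (1+m*a) ∈ D2 p)).card ≤
      (Icc ⌊164 * r * (x0 * (pr w).1)⌋₊ ⌊164 * r * ((x0 + r) * (pr w).1)⌋₊).card := by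
    apply card_le_card_of_injOn (fun a : ℕ => ⌊164 * r * ((1 + m * a : ℕ) : ℝ)⌋₊)
    · intro a ha
      rw [coe_filter, Set.mem_ofPred_eq] at ha
      have h1 := (mem_D2_iff.mp ha.2).1
      have e1 : (ptw w (1+m*a)).1 = ((1 + m * a : ℕ) : ℝ)/(pr w).1 := rfl
      rw [e1] at h1
      obtain ⟨h3, h4⟩ := h1
      rw [le_div_iff₀ hQ0] at h3
      rw [div_lt_iff₀ hQ0] at h4
      rw [coe_Icc, Set.mem_Icc]
      constructor
      · apply Nat.floor_le_floor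
        gcongr
      · apply Nat.floor_le_floor
        gcongr
    · intro a ha b hb hab
      rw [coe_filter, Set.mem_ofPred_eq] at ha hb
      simp only at hab
      by_contra hne
      rcases lt_or_gt_of_ne hne with h | h
      · have h1 : 1 + m * a < 1 + m * b := by
          have := Nat.mul_lt_mul_of_pos_left h hm
          omega
        exact floor_ne (by positivity) (gap_step w h2 hA hp h1 hb.2 ha.2) hab
      · have h1 : 1 + m * b < 1 + m * a := by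
          have := Nat.mul_lt_mul_of_pos_left h hm
          omega
        exact floor_ne (by positivity) (gap_step w h2 hA hp h1 ha.2 hb.2) hab.symm
  have h1 : (((range (pr w).1).filter (fun a : ℕ => ptw w (1+m*a) ∈ D2 p)).card : ℝ) ≤
      ((Icc ⌊164 * r * (x0 * (pr w).1)⌋₊ ⌊164 * r * ((x0 + r) * (pr w).1)⌋₊).card : ℝ) := by exact_mod_cast hcard
  refine h1.trans ((icc_card (by positivity) (by gcongr; linarith)).trans ?_)
  apply le_of_eq
  ring

/-- all points in a square -/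
noncomputable def Fp (G : Finset (List ℕ)) (m : ℕ) (p : Ix) : Finset (List ℕ × ℕ) := by
  classical exact G.biUnion (fun w => ((range (pr w).1).filter
    (fun a => Nat.Coprime (1+m*a) (pr w).1 ∧ ptw w (1+m*a) ∈ D2 p)).image (fun a => (w, a)))

theorem mem_Fp {G : Finset (List ℕ)} {m : ℕ} {p : Ix} {x : List ℕ × ℕ} : x ∈ Fp G m p ↔
    x.1 ∈ G ∧ x.2 < (pr x.1).1 ∧ Nat.Coprime (1+m*x.2) (pr x.1).1 ∧ ptw x.1 (1+m*x.2) ∈ D2 p := by
  classical
  unfold Fp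
  rw [mem_biUnion]
  constructor
  · rintro ⟨w, hw, hx⟩
    rw [mem_image] at hx
    obtain ⟨a, ha, rfl⟩ := hx
    rw [mem_filter, mem_range] at ha
    exact ⟨hw, ha⟩
  · rintro ⟨h1, h2⟩
    refine ⟨x.1, h1, ?_⟩
    rw [mem_image]
    refine ⟨x.2, ?_, rfl⟩
    rw [mem_filter, mem_range]
    exact h2

theorem card_Fp (G : Finset (List ℕ)) (m : ℕ) (p : Ix)
    [∀ w : List ℕ, DecidablePred (fun a => Nat.Coprime (1+m*a) (pr w).1 ∧ ptw w (1+m*a) ∈ D2 p)] :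
    (Fp G m p).card = ∑ w ∈ G, ((range (pr w).1).filter
      (fun a => Nat.Coprime (1+m*a) (pr w).1 ∧ ptw w (1+m*a) ∈ D2 p)).card := by
  classical
  unfold Fp
  rw [card_biUnion]
  · apply sum_congr rfl
    intro w _
    rw [card_image_of_injective _ (fun a b h => (Prod.mk.inj h).2)]
    congr 1
    apply filter_congr_decidable
  · intro w _ w' _ hne
    rw [Function.onFun, disjoint_left]
    intro x hx hx'
    rw [mem_image] at hx hx'
    obtain ⟨a, _, rfl⟩ := hx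
    obtain ⟨b, _, h⟩ := hx'
    exact hne (Prod.mk.inj h).1.symm

/-- points with nearly the same coordinates coincide -/
theorem small_inj {n : ℕ} {w w' : List ℕ} (hw : w ∈ Wd n) (hw' : w' ∈ Wd n) {a a' : ℕ}
    (hc : Nat.Coprime a (pr w).1) (hc' : Nat.Coprime a' (pr w').1) {p : Ix}
    (hp : ptw w a ∈ D2 p) (hp' : ptw w' a' ∈ D2 p) (hr : (1/2^p.1 : ℝ) * 163^n ≤ 1)
    (hx : |(ptw w a).1 - (ptw w' a').1| * (163^n)^2 < 1) : w = w' ∧ a = a' := by
  have hQ1 : 1 ≤ (pr w).1 := pr_pos w (fun a ha => by have := Wd_two hw a ha; omega)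
  have hQ1' : 1 ≤ (pr w').1 := pr_pos w' (fun a ha => by have := Wd_two hw' a ha; omega)
  have hQ0 : (0:ℝ) < (pr w).1 := by exact_mod_cast hQ1
  have hQ0' : (0:ℝ) < (pr w').1 := by exact_mod_cast hQ1'
  have hR : ((pr w).1:ℝ) ≤ 163^n := by exact_mod_cast Wd_upper hw
  have hR' : ((pr w').1:ℝ) ≤ 163^n := by exact_mod_cast Wd_upper hw'
  have e1 : (ptw w a).1 - (ptw w' a').1 = ((a:ℝ) * (pr w').1 - a' * (pr w).1) / ((pr w).1 * (pr w').1) := by
    show (a:ℝ) / (pr w).1 - (a':ℝ) / (pr w').1 = _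
    rw [div_sub_div _ _ hQ0.ne' hQ0'.ne']
    ring
  have h1 : |(a:ℝ) * (pr w').1 - a' * (pr w).1| < 1 := by
    rw [e1, abs_div, abs_of_pos (show (0:ℝ) < (pr w).1 * (pr w').1 by positivity)] at hx
    have h2 : ((pr w).1:ℝ) * (pr w').1 ≤ (163^n)^2 := by
      rw [sq]
      exact mul_le_mul hR hR' hQ0'.le (by positivity)
    have h3 : |(a:ℝ) * (pr w').1 - a' * (pr w).1| ≤
        |(a:ℝ) * (pr w').1 - a' * (pr w).1| / ((pr w).1 * (pr w').1) * (163^n)^2 := by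
      calc |(a:ℝ) * (pr w').1 - a' * (pr w).1| = |(a:ℝ) * (pr w').1 - a' * (pr w).1| / ((pr w).1 * (pr w').1) *
            ((pr w).1 * (pr w').1) := by field_simp
        _ ≤ _ := by gcongr
    linarith
  have h2 : (a:ℤ) * (pr w').1 - a' * (pr w).1 = 0 := by
    have : |(((a:ℤ) * (pr w').1 - a' * (pr w).1 : ℤ) : ℝ)| < 1 := by
      push_cast
      exact h1
    have h3 : |((a:ℤ) * (pr w').1 - a' * (pr w).1 : ℤ)| < 1 := by exact_mod_cast this
    exact Int.abs_lt_one_iff.mp h3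
  have h3 : a * (pr w').1 = a' * (pr w).1 := by
    have : (a:ℤ) * (pr w').1 = a' * (pr w).1 := by linarith
    exact_mod_cast this
  have h4 : (pr w).1 = (pr w').1 := by
    apply Nat.dvd_antisymm
    · apply hc.symm.dvd_of_dvd_mul_left
      rw [h3]
      exact dvd_mul_left _ _
    · apply hc'.symm.dvd_of_dvd_mul_left
      rw [← h3]
      exact dvd_mul_left _ _
  have h5 : a = a' := by
    rw [h4] at h3
    exact Nat.eq_of_mul_eq_mul_right hQ1' h3
  refine ⟨?_, h5⟩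
  subst h5
  rw [mem_D2_iff] at hp hp'
  obtain ⟨_, ⟨h6, h7⟩⟩ := hp
  obtain ⟨_, ⟨h8, h9⟩⟩ := hp'
  have e2 : (ptw w a).2 = Int.fract (((pr w).2:ℝ) * a / (pr w).1) := rfl
  have e3 : (ptw w' a).2 = Int.fract (((pr w').2:ℝ) * a / (pr w).1) := by
    rw [h4]
    rfl
  rw [e2] at h6 h7
  rw [e3] at h8 h9
  set N : ℤ := ⌊((pr w).2:ℝ) * a / (pr w).1⌋ - ⌊((pr w').2:ℝ) * a / (pr w).1⌋ with hN
  have h10 : |((((pr w).2:ℤ) - (pr w').2) * a - N * (pr w).1 : ℤ)| < 1 := by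
    have h11 : |((((pr w).2:ℝ) - (pr w').2) * a - N * (pr w).1)| < 1 := by
      have e : (((pr w).2:ℝ) - (pr w').2) * a - N * (pr w).1 =
          (Int.fract (((pr w).2:ℝ) * a / (pr w).1) - Int.fract (((pr w').2:ℝ) * a / (pr w).1)) * (pr w).1 := by
        rw [hN, Int.fract, Int.fract]
        push_cast
        field_simp
        ring
      rw [e, abs_mul, abs_of_pos hQ0]
      have h12 : |Int.fract (((pr w).2:ℝ) * a / (pr w).1) - Int.fract (((pr w').2:ℝ) * a / (pr w).1)| < 1/2^p.1 := by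
        rw [abs_lt]
        constructor <;> linarith
      calc _ < (1/2^p.1 : ℝ) * (pr w).1 := mul_lt_mul_of_pos_right h12 hQ0
        _ ≤ (1/2^p.1 : ℝ) * 163^n := by gcongr
        _ ≤ 1 := hr
    exact_mod_cast h11
  have h11 := Int.abs_lt_one_iff.mp h10
  have h12 : ((pr w).1 : ℤ) ∣ (((pr w).2:ℤ) - (pr w').2) * a := ⟨N, by linarith⟩
  have h13 : ((pr w).1 : ℤ) ∣ ((pr w).2:ℤ) - (pr w').2 := by
    have : IsCoprime ((pr w).1 : ℤ) (a:ℤ) := Nat.isCoprime_iff_coprime.mpr hc.symm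
    exact this.dvd_of_dvd_mul_right h12
  have hlt := pr_lt w (Wd_two hw)
  have hlt' := pr_lt w' (Wd_two hw')
  have h14 : ((pr w).2:ℤ) - (pr w').2 = 0 := by
    apply Int.eq_zero_of_abs_lt_dvd h13
    rw [abs_lt]
    omega
  exact pr_inj w w' (by rw [(mem_Wd.mp hw).1, (mem_Wd.mp hw').1]) (Wd_two hw) (Wd_two hw')
    (Prod.ext h4 (by omega))

theorem small_count {n m : ℕ} (hm : 1 ≤ m) (G : Finset (List ℕ)) (hG : G ⊆ Wd n) (p : Ix)
    (hr : (1/2^p.1 : ℝ) * 163^n ≤ 1) :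
    ((Fp G m p).card : ℝ) ≤ (1/2^p.1) * (163^n)^2 + 2 := by
  classical
  set r : ℝ := 1/2^p.1 with hrdef
  have hr0 : 0 < r := by positivity
  set x0 : ℝ := (p.2.1:ℝ) / 2^p.1 with hx0
  have hx00 : 0 ≤ x0 := by positivity
  have hcard : (Fp G m p).card ≤ (Icc ⌊x0 * (163^n)^2⌋₊ ⌊(x0 + r) * (163^n)^2⌋₊).card := by
    apply card_le_card_of_injOn (fun x : List ℕ × ℕ => ⌊(ptw x.1 (1 + m * x.2)).1 * (163^n)^2⌋₊)
    · intro x hx
      rw [mem_coe, mem_Fp] at hx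
      have h1 := (mem_D2_iff.mp hx.2.2.2).1
      rw [coe_Icc, Set.mem_Icc]
      constructor
      · apply Nat.floor_le_floor
        have := h1.1
        gcongr
      · apply Nat.floor_le_floor
        have := h1.2.le
        gcongr
    · intro x hx y hy hxy
      rw [mem_coe, mem_Fp] at hx hy
      simp only at hxy
      have hxn : 0 ≤ (ptw x.1 (1 + m * x.2)).1 := by unfold ptw; positivity
      have hyn : 0 ≤ (ptw y.1 (1 + m * y.2)).1 := by unfold ptw; positivity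
      have h1 : |(ptw x.1 (1 + m * x.2)).1 - (ptw y.1 (1 + m * y.2)).1| * (163^n)^2 < 1 := by
        have h2 : (0:ℝ) < (163^n)^2 := by positivity
        rw [← abs_of_pos h2, ← abs_mul, sub_mul]
        have h3 := Nat.floor_le (show 0 ≤ (ptw x.1 (1 + m * x.2)).1 * (163^n)^2 by positivity)
        have h4 := Nat.floor_le (show 0 ≤ (ptw y.1 (1 + m * y.2)).1 * (163^n)^2 by positivity)
        have h5 := Nat.lt_floor_add_one ((ptw x.1 (1 + m * x.2)).1 * (163^n)^2)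
        have h6 := Nat.lt_floor_add_one ((ptw y.1 (1 + m * y.2)).1 * (163^n)^2)
        rw [hxy] at h3 h5
        rw [abs_lt]
        constructor <;> linarith
      obtain ⟨h2, h3⟩ := small_inj (hG hx.1) (hG hy.1) hx.2.2.1 hy.2.2.1 hx.2.2.2 hy.2.2.2 hr h1
      have h4 : m * x.2 = m * y.2 := by omega
      exact Prod.ext h2 (Nat.eq_of_mul_eq_mul_left hm h4)
  have h1 : ((Fp G m p).card : ℝ) ≤ ((Icc ⌊x0 * (163^n)^2⌋₊ ⌊(x0 + r) * (163^n)^2⌋₊).card : ℝ) := by exact_mod_cast hcard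
  refine h1.trans ((icc_card (by positivity) (by gcongr; linarith)).trans ?_)
  apply le_of_eq
  ring

end Pool.Agent.R331.UL
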