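import Pool.Agent.R331.UL.Game
import Pool.Agent.R331.MT.Three

set_option autoImplicit false

/-!
Content bound and dimension bound for intersections of open sets with full dyadic content (plane).
-/

namespace Pool.Agent.R331.UL

open MeasureTheory Filter Topology Set
open scoped ENNReal
open Pool.Agent.R331.MT (D Dc idx mem_D_iff D_nonneg mem_D_idx D_nonempty Tn Tn_mem)

/-- a few dyadic squares near `z` -/
def T2 (n : ℕ) (z : ℝ × ℝ) : Set Ix := {p | p.1 = n ∧ (n, p.2.1) ∈ Tn n z.1 ∧ (n, p.2.2) ∈ Tn n z.2}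

theorem W_T2 (s : ℝ) (n : ℕ) (z : ℝ × ℝ) : W s (T2 n z) ≤ 25 * ENNReal.ofReal (1/2^n) ^ s := by
  classical
  unfold W
  have h1 : ∀ p, p ∉ (({n} : Finset ℕ) ×ˢ ((Finset.Icc (idx n z.1 - 2) (idx n z.1 + 2)) ×ˢ
      (Finset.Icc (idx n z.2 - 2) (idx n z.2 + 2)))) → (T2 n z).indicator (wt s) p = 0 := by
    intro p hp
    rw [Set.indicator_of_notMem]
    rintro ⟨a1, ⟨_, a2, a3⟩, ⟨_, a4, a5⟩⟩
    apply hp
    simp only at a2 a3 a4 a5
    rw [Finset.mem_product, Finset.mem_product, Finset.mem_singleton, Finset.mem_Icc, Finset.mem_Icc]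
    exact ⟨a1, ⟨by omega, a3⟩, ⟨by omega, a5⟩⟩
  rw [tsum_eq_sum h1]
  have h2 : ∀ p ∈ (({n} : Finset ℕ) ×ˢ ((Finset.Icc (idx n z.1 - 2) (idx n z.1 + 2)) ×ˢ
      (Finset.Icc (idx n z.2 - 2) (idx n z.2 + 2)))),
      (T2 n z).indicator (wt s) p ≤ ENNReal.ofReal (1/2^n) ^ s := by
    intro p hp
    rw [Finset.mem_product, Finset.mem_singleton] at hp
    refine (Set.indicator_le_self _ _ _).trans ?_
    unfold wt
    rw [hp.1]
  refine (Finset.sum_le_sum h2).trans ?_
  rw [Finset.sum_const, nsmul_eq_mul]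
  gcongr
  rw [Finset.card_product, Finset.card_singleton, one_mul, Finset.card_product, Nat.card_Icc, Nat.card_Icc]
  have e1 : idx n z.1 + 2 + 1 - (idx n z.1 - 2) ≤ 5 := by omega
  have e2 : idx n z.2 + 2 + 1 - (idx n z.2 - 2) ≤ 5 := by omega
  have := Nat.mul_le_mul e1 e2
  exact_mod_cast this

theorem T2_mem {n : ℕ} {z y : ℝ × ℝ} (hz : 0 ≤ z.1 ∧ 0 ≤ z.2) (hy : 0 ≤ y.1 ∧ 0 ≤ y.2) (h : dist y z < 2 / 2^n) :
    idx2 n y ∈ T2 n z := by
  rw [Prod.dist_eq, Real.dist_eq, Real.dist_eq, max_lt_iff] at h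
  exact ⟨rfl, Tn_mem hz.1 hy.1 h.1, Tn_mem hz.2 hy.2 h.2⟩

/-- cover of a small set by dyadic squares of one level -/
theorem single2 {s : ℝ} (hs : 0 < s) (hs1 : s ≤ 1) (A : Set (ℝ × ℝ)) (hA : Metric.ediam A < 1) {ε : ℝ} (hε : 0 < ε) :
    ∃ (n : ℕ) (T : Set Ix), (∀ x ∈ A, x ∈ Icc (0:ℝ) 1 ×ˢ Icc (0:ℝ) 1 → ∀ y : ℝ × ℝ, (0 ≤ y.1 ∧ 0 ≤ y.2) →
      dist y x < 1 / 2^n → idx2 n y ∈ T) ∧ W s T ≤ 50 * Metric.ediam A ^ s + ENNReal.ofReal ε := by
  by_cases hne : ∃ z ∈ A, z ∈ Icc (0:ℝ) 1 ×ˢ Icc (0:ℝ) 1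
  · obtain ⟨z, hz, hz01⟩ := hne
    have hz0 : 0 ≤ z.1 ∧ 0 ≤ z.2 := ⟨hz01.1.1, hz01.2.1⟩
    set d := (Metric.ediam A).toReal with hd
    have hdt : Metric.ediam A ≠ ⊤ := ne_top_of_lt hA
    have hd0 : 0 ≤ d := ENNReal.toReal_nonneg
    have hd1 : d < 1 := by
      have := (ENNReal.toReal_lt_toReal hdt ENNReal.one_ne_top).mpr hA
      simpa using this
    have hdist : ∀ x ∈ A, dist x z ≤ d := by
      intro x hx
      have := Metric.edist_le_ediam_of_mem hx hz
      rw [edist_dist] at this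
      have := ENNReal.toReal_mono hdt this
      rwa [ENNReal.toReal_ofReal dist_nonneg] at this
    have key : ∀ n : ℕ, d ≤ 1/2^n → ∀ x ∈ A, x ∈ Icc (0:ℝ) 1 ×ˢ Icc (0:ℝ) 1 → ∀ y : ℝ × ℝ, (0 ≤ y.1 ∧ 0 ≤ y.2) →
        dist y x < 1 / 2^n → idx2 n y ∈ T2 n z := by
      intro n hn x hx _ y hy hyx
      apply T2_mem hz0 hy
      have h1 := hdist x hx
      have h2 : dist y z ≤ dist y x + dist x z := dist_triangle _ _ _
      have h3 : (2:ℝ) / 2^n = 1/2^n + 1/2^n := by ring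
      linarith
    rcases eq_or_lt_of_le hd0 with h0 | h0
    · -- zero diameter
      have : Tendsto (fun n : ℕ => 25 * ((1:ℝ)/2^n) ^ s) atTop (𝓝 0) := by
        have h1 : Tendsto (fun n : ℕ => ((1:ℝ)/2)^n) atTop (𝓝 0) :=
          tendsto_pow_atTop_nhds_zero_of_lt_one (by norm_num) (by norm_num)
        have h2 := (Real.continuousAt_rpow_const 0 s (Or.inr hs.le)).tendsto.comp h1
        rw [Real.zero_rpow hs.ne'] at h2
        have h3 := h2.const_mul 25
        rw [mul_zero] at h3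
        refine h3.congr fun n => ?_
        show 25 * (((1:ℝ)/2)^n)^s = 25 * ((1:ℝ)/2^n) ^ s
        rw [div_pow, one_pow]
      obtain ⟨n, hn⟩ := ((tendsto_order.mp this).2 _ hε).exists
      refine ⟨n, T2 n z, key n (by rw [← h0]; positivity), ?_⟩
      refine (W_T2 s n z).trans ?_
      refine le_trans ?_ le_add_self
      calc 25 * ENNReal.ofReal (1/2^n) ^ s = ENNReal.ofReal (25 * ((1:ℝ)/2^n) ^ s) := by
            rw [ENNReal.ofReal_mul (by norm_num), ENNReal.ofReal_rpow_of_nonneg (by positivity) hs.le]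
            norm_num
        _ ≤ _ := ENNReal.ofReal_le_ofReal hn.le
    · obtain ⟨n, hn1, hn2⟩ := exists_nat_pow_near_of_lt_one h0 hd1.le (by norm_num : (0:ℝ) < 1/2) (by norm_num)
      have e1 : ((1:ℝ)/2)^n = 1/2^n := by rw [div_pow, one_pow]
      refine ⟨n, T2 n z, key n (by rw [← e1]; exact hn2), ?_⟩
      refine (W_T2 s n z).trans ?_
      refine le_trans ?_ le_self_add
      have h1 : (1:ℝ)/2^n ≤ 2 * d := by
        rw [← e1]
        rw [pow_succ] at hn1
        linarith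
      calc 25 * ENNReal.ofReal (1/2^n) ^ s ≤ 25 * ENNReal.ofReal (2 * d) ^ s := by
            gcongr
        _ = 25 * (ENNReal.ofReal 2 ^ s * Metric.ediam A ^ s) := by
            rw [ENNReal.ofReal_mul (by norm_num), ENNReal.mul_rpow_of_nonneg _ _ hs.le, hd,
              ENNReal.ofReal_toReal hdt]
        _ ≤ 25 * (2 * Metric.ediam A ^ s) := by
            gcongr
            calc ENNReal.ofReal 2 ^ s ≤ ENNReal.ofReal 2 ^ (1:ℝ) := by
                  apply ENNReal.rpow_le_rpow_of_exponent_le _ hs1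
                  norm_num
              _ = 2 := by rw [ENNReal.rpow_one]; norm_num
        _ = 50 * Metric.ediam A ^ s := by
            rw [← mul_assoc]
            norm_num
  · refine ⟨0, ∅, ?_, ?_⟩
    · intro x hx hx01
      exact absurd ⟨x, hx, hx01⟩ hne
    · unfold W
      simp

theorem content2 {s : ℝ} (hs : 0 < s) (hs1 : s ≤ 1) (U : ℕ → Set (ℝ × ℝ)) (hU : ∀ n, IsOpen (U n))
    (hF : ∀ n, Full s (U n)) (A : ℕ → Set (ℝ × ℝ))
    (hA : {x | x ∈ Icc (0:ℝ) 1 ×ˢ Icc (0:ℝ) 1 ∧ ∀ n, x ∈ U n} ⊆ ⋃ j, A j) :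
    ENNReal.ofReal (1/100) ≤ ∑' j, Metric.ediam (A j) ^ s := by
  by_contra hcon
  push Not at hcon
  have hsmall : ∀ j, Metric.ediam (A j) < 1 := by
    intro j
    by_contra h
    push Not at h
    have h1 : Metric.ediam (A j) ^ s ≤ ∑' j, Metric.ediam (A j) ^ s := ENNReal.le_tsum j
    have h2 : (1:ℝ≥0∞) ≤ Metric.ediam (A j) ^ s := ENNReal.one_le_rpow h hs
    have h3 := (h2.trans h1).trans_lt hcon
    rw [← ENNReal.ofReal_one] at h3
    have := (ENNReal.ofReal_lt_ofReal_iff (by norm_num)).mp h3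
    norm_num at this
  have hch := fun j => single2 hs hs1 (A j) (hsmall j) (show (0:ℝ) < (1/2)^(j+3) by positivity)
  choose n T hT1 hT2 using hch
  have hW : W s (⋃ j, T j) < 1 := by
    calc W s (⋃ j, T j) ≤ ∑' j, W s (T j) := by
          unfold W
          rw [ENNReal.tsum_comm]
          apply ENNReal.tsum_le_tsum
          intro p
          by_cases hp : p ∈ ⋃ j, T j
          · rw [Set.indicator_of_mem hp]
            obtain ⟨j, hj⟩ := mem_iUnion.mp hp
            refine le_trans (le_of_eq ?_) (ENNReal.le_tsum j)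
            rw [Set.indicator_of_mem hj]
          · rw [Set.indicator_of_notMem hp]
            exact zero_le
      _ ≤ ∑' j, (50 * Metric.ediam (A j) ^ s + ENNReal.ofReal ((1/2)^(j+3))) := ENNReal.tsum_le_tsum hT2
      _ = 50 * ∑' j, Metric.ediam (A j) ^ s + ∑' j : ℕ, ENNReal.ofReal ((1/2)^(j+3)) := by
          rw [ENNReal.tsum_add, ENNReal.tsum_mul_left]
      _ ≤ 50 * ENNReal.ofReal (1/100) + ENNReal.ofReal (1/4) := by
          gcongr
          have hs2 : Summable (fun n : ℕ => ((1:ℝ)/2)^(n+3)) :=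
            (summable_nat_add_iff 3).mpr summable_geometric_two
          rw [← ENNReal.ofReal_tsum_of_nonneg (fun n => by positivity) hs2]
          apply ENNReal.ofReal_le_ofReal
          have e : ∀ n : ℕ, ((1:ℝ)/2)^(n+3) = (1/8) * ((1:ℝ)/2)^n := by
            intro n
            rw [pow_add]
            ring
          simp_rw [e]
          rw [tsum_mul_left, tsum_geometric_two]
          norm_num
      _ = ENNReal.ofReal (3/4) := by
          have : (50:ℝ≥0∞) = ENNReal.ofReal 50 := by norm_num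
          rw [this, ← ENNReal.ofReal_mul (by norm_num), ← ENNReal.ofReal_add (by norm_num) (by norm_num)]
          norm_num
      _ < 1 := by
          rw [← ENNReal.ofReal_one]
          exact (ENNReal.ofReal_lt_ofReal_iff (by norm_num)).mpr (by norm_num)
  obtain ⟨x, hx01, hxU, hxL⟩ := game U hU hF hW
  obtain ⟨j, hj⟩ := mem_iUnion.mp (hA (show x ∈ {x | x ∈ Icc (0:ℝ) 1 ×ˢ Icc (0:ℝ) 1 ∧ ∀ n, x ∈ U n} from ⟨hx01, hxU⟩))
  obtain ⟨L, hL1, hL2, hL3, hL4⟩ := hxL (n j + 1)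
  have hyL : cor L ∈ D2 L := cor_mem L
  have hy0 := D2_nonneg hyL
  have aux : ∀ (k : ℕ) (u : ℝ), u ∈ Dc (L.1, k) → |(k:ℝ)/2^L.1 - u| < 1 / 2^(n j) := by
    intro k u hu
    have h1 := hu.1
    have h2 := hu.2
    simp only at h1 h2
    rw [add_div] at h2
    have h3 : (1:ℝ) / 2^L.1 ≤ 1/2^(n j + 1) := by
      apply one_div_le_one_div_of_le (by positivity)
      exact pow_le_pow_right₀ (by norm_num) hL1
    have h4 : (1:ℝ)/2^(n j + 1) < 1/2^(n j) := by
      apply one_div_lt_one_div_of_lt (by positivity)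
      exact pow_lt_pow_right₀ (by norm_num) (by omega)
    rw [abs_lt]
    constructor <;> linarith
  have hxy : dist (cor L) x < 1 / 2^(n j) := by
    rw [Prod.dist_eq, Real.dist_eq, Real.dist_eq]
    exact max_lt (aux _ _ hL2.1) (aux _ _ hL2.2)
  have hmem := hT1 j x hj hx01 (cor L) hy0 hxy
  refine hL4 _ (mem_iUnion.mpr ⟨j, hmem⟩) ?_
  exact D2_nested hyL (mem_D2_idx hy0 _) (by show n j ≤ L.1; omega)

theorem dim2 {s : ℝ} (hs : 0 < s) (hs1 : s ≤ 1) (U : ℕ → Set (ℝ × ℝ)) (hU : ∀ n, IsOpen (U n))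
    (hF : ∀ n, Full s (U n)) :
    ENNReal.ofReal s ≤ dimH {x : ℝ × ℝ | x ∈ Icc (0:ℝ) 1 ×ˢ Icc (0:ℝ) 1 ∧ ∀ n, x ∈ U n} := by
  set E := {x : ℝ × ℝ | x ∈ Icc (0:ℝ) 1 ×ˢ Icc (0:ℝ) 1 ∧ ∀ n, x ∈ U n} with hE
  have key : ENNReal.ofReal (1/100) ≤ Measure.hausdorffMeasure s E := by
    rw [Measure.hausdorffMeasure_apply]
    refine le_iSup₂_of_le 1 one_pos ?_
    refine le_iInf fun t => le_iInf fun hcov => le_iInf fun _ => ?_
    refine (content2 hs hs1 U hU hF t hcov).trans ?_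
    refine ENNReal.tsum_le_tsum fun n => ?_
    by_cases hne : (t n).Nonempty
    · rw [iSup_pos hne]
    · have : t n = ∅ := not_nonempty_iff_eq_empty.mp hne
      rw [iSup_neg hne]
      simp [this, hs]
  have h3 := le_dimH_of_hausdorffMeasure_ne_zero (s := E) (d := s.toNNReal) (by
    rw [Real.coe_toNNReal _ hs.le]
    intro h0
    rw [h0] at key
    simp at key)
  exact h3

theorem vol_D2 (p : Ix) : volume (D2 p) = ENNReal.ofReal (1 / 2^p.1) ^ (2:ℝ) := by
  have hlen : ∀ p : ℕ × ℕ, ((p.2:ℝ)+1) / 2^p.1 - (p.2:ℝ) / 2^p.1 = 1 / 2^p.1 := by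
    intro p
    field_simp
    ring
  unfold D2 MT.D
  rw [Measure.volume_eq_prod, Measure.prod_prod, Real.volume_Ico, Real.volume_Ico, hlen, hlen]
  rw [ENNReal.rpow_two, sq]

theorem wt_eq (s : ℝ) (hs : 0 ≤ s) (p : Ix) : wt s p = ENNReal.ofReal ((1 / 2^p.1) ^ s) := by
  unfold wt
  rw [ENNReal.ofReal_rpow_of_nonneg (by positivity) hs]

theorem full_of_points {ι : Type} {s : ℝ} (hs : 0 < s) (hs2 : s ≤ 2) {U : Set (ℝ × ℝ)}
    (h : ∀ L : Ix, D2 L ⊆ Sq → ∃ (F : Finset ι) (pt : ι → ℝ × ℝ) (n₀ : ℕ), L.1 ≤ n₀ ∧ F.Nonempty ∧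
      (∀ x ∈ F, pt x ∈ D2 L) ∧ (∀ x ∈ F, D2 (idx2 n₀ (pt x)) ⊆ U) ∧
      ∀ p : Ix, D2 p ⊆ D2 L → p.1 ≤ n₀ →
        (Nat.card {x : ι | x ∈ F ∧ pt x ∈ D2 p} : ℝ) * (1 / 2^L.1) ^ s ≤ (1 / 2^p.1) ^ s * (F.card : ℝ)) :
    Full s U := by
  classical
  intro L hL T hT
  obtain ⟨F, pt, n₀, hn₀, hne, hptL, hptU, hcount⟩ := h L hL
  by_cases hbig : ∃ p ∈ T, D2 L ⊆ D2 p
  · obtain ⟨p, hp, hsub⟩ := hbig
    have h1 : p.1 ≤ L.1 := D2_level hsub
    have h2 : wt s p ≤ W s T := by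
      unfold W
      refine le_trans (le_of_eq ?_) (ENNReal.le_tsum p)
      rw [Set.indicator_of_mem hp]
    refine le_trans ?_ h2
    unfold wt
    apply ENNReal.rpow_le_rpow _ hs.le
    apply ENNReal.ofReal_le_ofReal
    apply one_div_le_one_div_of_le (by positivity)
    exact pow_le_pow_right₀ (by norm_num) h1
  push Not at hbig
  set T' : Set Ix := {p | p ∈ T ∧ D2 p ⊆ D2 L} with hT'
  suffices hsuff : wt s L ≤ W s T' from hsuff.trans (W_mono fun p hp => hp.1)
  have hx0 : ∀ x ∈ F, 0 ≤ (pt x).1 ∧ 0 ≤ (pt x).2 := fun x hx => D2_nonneg (hptL x hx)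
  have hcov : ∀ x ∈ F, D2 (idx2 n₀ (pt x)) ⊆ ⋃ p : Ix, {y | p ∈ T' ∧ y ∈ D2 p} := by
    intro x hx y hy
    have hyL : y ∈ D2 L := D2_nested (mem_D2_idx (hx0 x hx) n₀) (hptL x hx) hn₀ hy
    obtain ⟨p, hp, hyp⟩ := hT y hyL (hptU x hx hy)
    rw [mem_iUnion]
    refine ⟨p, ⟨hp, ?_⟩, hyp⟩
    rcases le_total L.1 p.1 with hle | hle
    · exact D2_nested hyp hyL hle
    · exact absurd (D2_nested hyL hyp hle) (hbig p hp)
  set a : ℝ≥0∞ := ENNReal.ofReal (1 / 2^n₀) with ha
  have ha0 : a ≠ 0 := by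
    rw [ha, ENNReal.ofReal_ne_zero_iff]
    positivity
  have hat : a ≠ ⊤ := ENNReal.ofReal_ne_top
  set v0 : ℝ≥0∞ := a ^ (2:ℝ) with hv0
  have hv00 : v0 ≠ 0 := (ENNReal.rpow_pos (pos_iff_ne_zero.mpr ha0) hat).ne'
  have hv0t : v0 ≠ ⊤ := ENNReal.rpow_ne_top_of_nonneg (by norm_num) hat
  have hS : ∀ x, volume (D2 (idx2 n₀ (pt x))) = v0 := fun x => vol_D2 _
  have hcount' : ∀ p : Ix, D2 p ⊆ D2 L → p.1 ≤ n₀ →
      ((F.filter (fun x => pt x ∈ D2 p)).card : ℝ≥0∞) * wt s L ≤ wt s p * (F.card : ℝ≥0∞) := by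
    intro p h1 h2
    have h3 := hcount p h1 h2
    have h4 : Nat.card {x : ι | x ∈ F ∧ pt x ∈ D2 p} = (F.filter (fun x => pt x ∈ D2 p)).card := by
      have : {x : ι | x ∈ F ∧ pt x ∈ D2 p} = ((F.filter (fun x => pt x ∈ D2 p) : Finset ι) : Set ι) := by
        ext x
        simp
      rw [this]
      simp
    rw [h4] at h3
    rw [wt_eq s hs.le, wt_eq s hs.le, ← ENNReal.ofReal_natCast, ← ENNReal.ofReal_natCast,
      ← ENNReal.ofReal_mul (by positivity), ← ENNReal.ofReal_mul (by positivity)]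
    exact ENNReal.ofReal_le_ofReal h3
  have hclaim : ∀ p ∈ T', (∑ x ∈ F, volume (D2 (idx2 n₀ (pt x)) ∩ D2 p)) * wt s L ≤
      wt s p * ((F.card : ℝ≥0∞) * v0) := by
    intro p hp
    rcases le_or_gt p.1 n₀ with hle | hlt
    · have h1 : ∑ x ∈ F, volume (D2 (idx2 n₀ (pt x)) ∩ D2 p) ≤ ((F.filter (fun x => pt x ∈ D2 p)).card : ℝ≥0∞) * v0 := by
        rw [← nsmul_eq_mul, ← Finset.sum_const, Finset.sum_filter]
        apply Finset.sum_le_sum
        intro x hx
        by_cases hm : pt x ∈ D2 p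
        · rw [if_pos hm]
          exact (measure_mono inter_subset_left).trans (hS x).le
        · rw [if_neg hm]
          have : D2 (idx2 n₀ (pt x)) ∩ D2 p = ∅ := by
            rw [eq_empty_iff_forall_notMem]
            rintro y ⟨hy1, hy2⟩
            exact hm (D2_nested hy1 hy2 hle (mem_D2_idx (hx0 x hx) n₀))
          rw [this, measure_empty]
      calc _ ≤ ((F.filter (fun x => pt x ∈ D2 p)).card : ℝ≥0∞) * v0 * wt s L := by gcongr
        _ = ((F.filter (fun x => pt x ∈ D2 p)).card : ℝ≥0∞) * wt s L * v0 := by ring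
        _ ≤ wt s p * (F.card : ℝ≥0∞) * v0 := mul_le_mul' (hcount' p hp.2 hle) le_rfl
        _ = _ := by ring
    · set q : Ix := idx2 n₀ (cor p) with hq
      have hp0 := D2_nonneg (cor_mem p)
      have hcq : cor p ∈ D2 q := mem_D2_idx hp0 n₀
      have hqL : D2 q ⊆ D2 L := D2_nested hcq (hp.2 (cor_mem p)) hn₀
      have hpq : D2 p ⊆ D2 q := D2_nested (cor_mem p) hcq hlt.le
      have h1 : ∑ x ∈ F, volume (D2 (idx2 n₀ (pt x)) ∩ D2 p) ≤
          ((F.filter (fun x => pt x ∈ D2 q)).card : ℝ≥0∞) * volume (D2 p) := by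
        rw [← nsmul_eq_mul, ← Finset.sum_const, Finset.sum_filter]
        apply Finset.sum_le_sum
        intro x hx
        by_cases hm : pt x ∈ D2 q
        · rw [if_pos hm]
          exact measure_mono inter_subset_right
        · rw [if_neg hm]
          have : D2 (idx2 n₀ (pt x)) ∩ D2 p = ∅ := by
            rw [eq_empty_iff_forall_notMem]
            rintro y ⟨hy1, hy2⟩
            exact hm (D2_nested hy1 (hpq hy2) le_rfl (mem_D2_idx (hx0 x hx) n₀))
          rw [this, measure_empty]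
      set b : ℝ≥0∞ := ENNReal.ofReal (1 / 2^p.1) with hb
      have hb0 : b ≠ 0 := by
        rw [hb, ENNReal.ofReal_ne_zero_iff]
        positivity
      have hbt : b ≠ ⊤ := ENNReal.ofReal_ne_top
      have hba : b ≤ a := by
        apply ENNReal.ofReal_le_ofReal
        apply one_div_le_one_div_of_le (by positivity)
        exact pow_le_pow_right₀ (by norm_num) hlt.le
      have h2 : wt s q * volume (D2 p) ≤ wt s p * v0 := by
        rw [vol_D2]
        show a ^ s * b ^ (2:ℝ) ≤ b ^ s * a ^ (2:ℝ)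
        have e1 : b ^ (2:ℝ) = b ^ s * b ^ (2 - s) := by
          rw [← ENNReal.rpow_add _ _ hb0 hbt]
          congr 1
          ring
        have e2 : a ^ (2:ℝ) = a ^ s * a ^ (2 - s) := by
          rw [← ENNReal.rpow_add _ _ ha0 hat]
          congr 1
          ring
        rw [e1, e2]
        calc a ^ s * (b ^ s * b ^ (2 - s)) = b ^ s * (a ^ s * b ^ (2-s)) := by ring
          _ ≤ _ := by
            gcongr
      calc _ ≤ ((F.filter (fun x => pt x ∈ D2 q)).card : ℝ≥0∞) * volume (D2 p) * wt s L := by gcongr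
        _ = ((F.filter (fun x => pt x ∈ D2 q)).card : ℝ≥0∞) * wt s L * volume (D2 p) := by ring
        _ ≤ wt s q * (F.card : ℝ≥0∞) * volume (D2 p) := mul_le_mul' (hcount' q hqL le_rfl) le_rfl
        _ = (F.card : ℝ≥0∞) * (wt s q * volume (D2 p)) := by ring
        _ ≤ (F.card : ℝ≥0∞) * (wt s p * v0) := by gcongr
        _ = _ := by ring
  have hmain : ((F.card : ℝ≥0∞) * v0) * wt s L ≤ W s T' * ((F.card : ℝ≥0∞) * v0) := by
    calc ((F.card : ℝ≥0∞) * v0) * wt s L
        = (∑ x ∈ F, volume (D2 (idx2 n₀ (pt x)))) * wt s L := by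
          rw [Finset.sum_congr rfl (fun x _ => hS x), Finset.sum_const, nsmul_eq_mul]
      _ ≤ (∑ x ∈ F, ∑' p, T'.indicator (fun p => volume (D2 (idx2 n₀ (pt x)) ∩ D2 p)) p) * wt s L := by
          gcongr with x hx
          have h1 : D2 (idx2 n₀ (pt x)) ⊆ ⋃ p : Ix, (D2 (idx2 n₀ (pt x)) ∩ {y | p ∈ T' ∧ y ∈ D2 p}) := by
            rw [← inter_iUnion]
            exact subset_inter Subset.rfl (hcov x hx)
          refine (measure_mono h1).trans ((measure_iUnion_le _).trans ?_)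
          apply ENNReal.tsum_le_tsum
          intro p
          by_cases hp : p ∈ T'
          · rw [Set.indicator_of_mem hp]
            exact measure_mono (inter_subset_inter_right _ fun y hy => hy.2)
          · have : D2 (idx2 n₀ (pt x)) ∩ {y | p ∈ T' ∧ y ∈ D2 p} = ∅ := by
              rw [eq_empty_iff_forall_notMem]
              rintro y ⟨_, hy⟩
              exact hp hy.1
            rw [this, measure_empty]
            exact zero_le
      _ = ∑' p, T'.indicator (fun p => (∑ x ∈ F, volume (D2 (idx2 n₀ (pt x)) ∩ D2 p)) * wt s L) p := by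
          rw [← Summable.tsum_finsetSum (fun x _ => ENNReal.summable), ← ENNReal.tsum_mul_right]
          apply tsum_congr
          intro p
          by_cases hp : p ∈ T'
          · rw [Set.indicator_of_mem hp]
            congr 1
            apply Finset.sum_congr rfl
            intro x _
            rw [Set.indicator_of_mem hp]
          · rw [Set.indicator_of_notMem hp, Finset.sum_eq_zero, zero_mul]
            intro x _
            rw [Set.indicator_of_notMem hp]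
      _ ≤ ∑' p, T'.indicator (fun p => wt s p * ((F.card : ℝ≥0∞) * v0)) p := by
          apply ENNReal.tsum_le_tsum
          intro p
          by_cases hp : p ∈ T'
          · rw [Set.indicator_of_mem hp, Set.indicator_of_mem hp]
            exact hclaim p hp
          · rw [Set.indicator_of_notMem hp, Set.indicator_of_notMem hp]
      _ = W s T' * ((F.card : ℝ≥0∞) * v0) := by
          unfold W
          rw [← ENNReal.tsum_mul_right]
          apply tsum_congr
          intro p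
          by_cases hp : p ∈ T'
          · rw [Set.indicator_of_mem hp, Set.indicator_of_mem hp]
          · rw [Set.indicator_of_notMem hp, Set.indicator_of_notMem hp, zero_mul]
  have hc0 : (F.card : ℝ≥0∞) * v0 ≠ 0 := by
    apply mul_ne_zero _ hv00
    have := hne.card_pos
    exact_mod_cast this.ne'
  have hct : (F.card : ℝ≥0∞) * v0 ≠ ⊤ := ENNReal.mul_ne_top (ENNReal.natCast_ne_top _) hv0t
  rw [mul_comm] at hmain
  exact (ENNReal.mul_le_mul_iff_left hc0 hct).mp hmain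

end Pool.Agent.R331.UL
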