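import Mathlib

set_option autoImplicit false

/-!
The numerical inequalities of the mass distribution argument.
-/

namespace Pool.Agent.R331.UL

theorem num1 {s r l : ℝ} (hs0 : 0 ≤ s) (hs : s ≤ 1) (hr : 0 < r) (h : r ≤ l/2) :
    r^2 * l^s ≤ r^s * l^2 / 2 := by
  have hl : 0 < l := by linarith
  have e1 : r^2 = r^s * (r^(1-s) * r) := by
    rw [← mul_assoc, ← Real.rpow_add hr, add_sub_cancel, Real.rpow_one, sq]
  have e2 : l^2 = l^s * (l^(1-s) * l) := by
    rw [← mul_assoc, ← Real.rpow_add hl, add_sub_cancel, Real.rpow_one, sq]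
  rw [e1, e2]
  have h1 : r^(1-s) ≤ l^(1-s) := Real.rpow_le_rpow hr.le (by linarith) (by linarith)
  have h2 : r^(1-s) * r ≤ l^(1-s) * (l/2) := mul_le_mul h1 h hr.le (by positivity)
  calc r^s * (r^(1-s) * r) * l^s ≤ r^s * (l^(1-s) * (l/2)) * l^s := by gcongr
    _ = _ := by ring

theorem num2 {s r : ℝ} (hs : s ≤ 1) (hr : 0 < r) (h : r ≤ 1) : r ≤ r^s := by
  calc r = r^(1:ℝ) := (Real.rpow_one r).symm
    _ ≤ r^s := Real.rpow_le_rpow_of_exponent_ge hr h hs

theorem num3 {s r : ℝ} {n : ℕ} (hs0 : 0 ≤ s) (hr : 0 < r) (h : 1 ≤ 729^n * r) :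
    (81/(729:ℝ)^s)^n ≤ r^s * 81^n := by
  rw [div_pow, div_eq_inv_mul]
  apply mul_le_mul_of_nonneg_right _ (by positivity)
  have h1 : (1:ℝ)/729^n ≤ r := by
    rw [div_le_iff₀ (by positivity)]
    linarith
  calc (((729:ℝ)^s)^n)⁻¹ = (1/729^n)^s := by
        rw [one_div, Real.inv_rpow (by positivity), ← Real.rpow_natCast, ← Real.rpow_mul (by norm_num),
          ← Real.rpow_natCast, ← Real.rpow_mul (by norm_num), mul_comm]
    _ ≤ r^s := Real.rpow_le_rpow (by positivity) h1 hs0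

theorem cube_aux {x y : ℝ} (hx : 0 ≤ x) (h : x = y^3) (hy : 0 ≤ y) : x^((1:ℝ)/3) = y := by
  rw [h, ← Real.rpow_natCast y 3, ← Real.rpow_mul hy]
  norm_num

theorem num4 {s r : ℝ} {n : ℕ} (hs : s ≤ 2/3) (hr : 0 < r) (h : 729^n * r < 1) :
    r * 26569^n ≤ r^s * (26569/9)^n := by
  have h729 : (1:ℝ) ≤ 729^n := one_le_pow₀ (by norm_num)
  have hr1 : r ≤ 1 := by nlinarith
  have e1 : r = r^s * r^(1-s) := by
    rw [← Real.rpow_add hr, add_sub_cancel, Real.rpow_one]
  have h1 : r^(1-s) ≤ r^((1:ℝ)/3) := Real.rpow_le_rpow_of_exponent_ge hr hr1 (by linarith)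
  have h2 : r ≤ 1/729^n := by
    rw [le_div_iff₀ (by positivity)]
    linarith
  have h3 : r^((1:ℝ)/3) ≤ (1/9)^n := by
    calc r^((1:ℝ)/3) ≤ (1/729^n)^((1:ℝ)/3) := Real.rpow_le_rpow hr.le h2 (by norm_num)
      _ = (1/9)^n := by
        apply cube_aux (by positivity) _ (by positivity)
        rw [← pow_mul, mul_comm, pow_mul, one_div, ← inv_pow]
        norm_num
  have hrs : 0 ≤ r^s := by positivity
  calc r * 26569^n = r^s * r^(1-s) * 26569^n := by rw [← e1]
    _ ≤ r^s * (1/9)^n * 26569^n := by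
        have := h1.trans h3
        gcongr
    _ = r^s * (26569/9)^n := by
        rw [div_pow, div_pow]
        ring

theorem num5 {s r : ℝ} {n : ℕ} (hs : s ≤ 2/3) (hr : 0 < r) (hr1 : r ≤ 1) (h : 1/40/(163^(2*n)) ≤ r) :
    1/16 * (1/1296)^n ≤ r^s := by
  have h1 : r^((2:ℝ)/3) ≤ r^s := Real.rpow_le_rpow_of_exponent_ge hr hr1 hs
  refine le_trans ?_ h1
  have h2 : (1/4 * (1/36)^n)^3 ≤ r := by
    refine le_trans ?_ h
    have e : ((1:ℝ)/4 * (1/36)^n)^3 = 1/64 / (46656^n) := by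
      rw [mul_pow, ← pow_mul, mul_comm n 3, pow_mul, div_pow, div_pow, div_pow]
      norm_num
      ring
    rw [e, pow_mul]
    gcongr
    · norm_num
    · norm_num
  have h3 : ((1/4 * (1/36)^n)^3 : ℝ)^((2:ℝ)/3) ≤ r^((2:ℝ)/3) := Real.rpow_le_rpow (by positivity) h2 (by norm_num)
  refine le_trans (le_of_eq ?_) h3
  have e2 : (((1:ℝ)/4 * (1/36)^n)^3)^((2:ℝ)/3) = ((1/4 * (1/36)^n)^2 : ℝ) := by
    rw [← Real.rpow_natCast _ 3, ← Real.rpow_mul (by positivity)]
    norm_num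
  rw [e2, mul_pow, ← pow_mul, mul_comm n 2, pow_mul]
  norm_num

theorem key_ineq {s l r m S M N cp : ℝ} {n : ℕ} (hs0 : 0 ≤ s) (hs : s < 2/3) (hl : 0 < l) (hl1 : l ≤ 1)
    (hm : 1 ≤ m) (hr : 0 < r) (hrl : r ≤ l/2) (hS : 6561^n/2 ≤ S) (hM : M * 81^n ≤ S)
    (hN : 3/4 * (l^2 * S / m) ≤ N) (n1 : 16/3 * m / l^2 ≤ (81/(729:ℝ)^s)^n)
    (n3 : (26569/9)^n ≤ 3/16 * (l^2 / m) * 6561^n) (n4 : 2 ≤ 3/256 * (l^2/m) * (6561/1296)^n)
    (hrlow : 1/40/(163^(2*n)) ≤ r)
    (d : cp ≤ 9/8 * (r^2 * S / m) ∨ (r ≤ 3/8 * l^2 / (m*164) ∧ cp ≤ 164 * r^2 * S + 2 * M ∧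
      (r * 163^n ≤ 1 → cp ≤ r * (163^n)^2 + 2))) :
    cp * l^s ≤ r^s * N := by
  have hS0 : 0 < S := lt_of_lt_of_le (by positivity) hS
  have hm0 : 0 < m := by linarith
  have hr1 : r ≤ 1 := by linarith
  have hls : 0 < l^s := Real.rpow_pos_of_pos hl s
  have hls1 : l^s ≤ 1 := Real.rpow_le_one hl.le hl1 hs0
  have hrs : 0 < r^s := Real.rpow_pos_of_pos hr s
  have hfin : r^s * (3/4 * (l^2 * S / m)) ≤ r^s * N := mul_le_mul_of_nonneg_left hN hrs.le
  rcases d with d | ⟨d1, d2, d3⟩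
  · refine le_trans ?_ hfin
    calc cp * l^s ≤ 9/8 * (r^2 * S / m) * l^s := mul_le_mul_of_nonneg_right d hls.le
      _ = 9/8 * (S/m) * (r^2 * l^s) := by ring
      _ ≤ 9/8 * (S/m) * (r^s * l^2 / 2) := by
          apply mul_le_mul_of_nonneg_left (num1 hs0 (by linarith) hr hrl)
          positivity
      _ = 9/16 * (r^s * (l^2 * S / m)) := by ring
      _ ≤ 3/4 * (r^s * (l^2 * S / m)) := by
          apply mul_le_mul_of_nonneg_right (by norm_num)
          positivity
      _ = _ := by ring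
  · by_cases hc : 1 ≤ 729^n * r
    · have hcp : cp ≤ r^s * (3/4 * (l^2 * S / m)) := by
        refine d2.trans ?_
        have a1 : 164 * r^2 * S ≤ r^s * (3/8 * (l^2 * S / m)) := by
          have b1 : r * r ≤ r^s * (3/8 * l^2 / (m*164)) := mul_le_mul (num2 (by linarith) hr hr1) d1 hr.le hrs.le
          calc 164 * r^2 * S = 164 * (r*r) * S := by ring
            _ ≤ 164 * (r^s * (3/8 * l^2 / (m*164))) * S := by gcongr
            _ = _ := by field_simp
        have a2 : 2 * M ≤ r^s * (3/8 * (l^2 * S / m)) := by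
          have b1 := n1.trans (num3 hs0 hr hc)
          have b2 : 2 ≤ r^s * 81^n * (3/8 * (l^2/m)) := by
            calc (2:ℝ) = 16/3 * m / l^2 * (3/8 * (l^2/m)) := by field_simp; norm_num
              _ ≤ _ := by gcongr
          have b3 : M ≤ S / 81^n := by
            rw [le_div_iff₀ (by positivity)]
            exact hM
          calc 2 * M ≤ 2 * (S/81^n) := by gcongr
            _ ≤ r^s * 81^n * (3/8 * (l^2/m)) * (S/81^n) := by gcongr
            _ = _ := by field_simp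
        linarith
      calc cp * l^s ≤ (r^s * (3/4 * (l^2 * S / m))) * l^s := mul_le_mul_of_nonneg_right hcp hls.le
        _ ≤ (r^s * (3/4 * (l^2 * S / m))) * 1 := by
            apply mul_le_mul_of_nonneg_left hls1
            positivity
        _ = r^s * (3/4 * (l^2 * S / m)) := mul_one _
        _ ≤ _ := hfin
    · push Not at hc
      have h163 : r * 163^n ≤ 1 := by
        have : (163:ℝ)^n ≤ 729^n := pow_le_pow_left₀ (by norm_num) (by norm_num) n
        nlinarith
      have hcp : cp ≤ r^s * (3/4 * (l^2 * S / m)) := by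
        refine (d3 h163).trans ?_
        have a1 : r * (163^n)^2 ≤ r^s * (3/8 * (l^2 * S / m)) := by
          have e : (((163:ℝ)^n)^2) = 26569^n := by
            rw [← pow_mul, mul_comm, pow_mul]
            norm_num
          rw [e]
          calc r * 26569^n ≤ r^s * (26569/9)^n := num4 hs.le hr hc
            _ ≤ r^s * (3/16 * (l^2 / m) * 6561^n) := by gcongr
            _ = r^s * (3/8 * (l^2 * (6561^n/2) / m)) := by ring
            _ ≤ _ := by gcongr
        have a2 : 2 ≤ r^s * (3/8 * (l^2 * S / m)) := by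
          calc (2:ℝ) ≤ 3/256 * (l^2/m) * (6561/1296)^n := n4
            _ = (1/16 * (1/1296)^n) * (3/8 * (l^2 * (6561^n/2) / m)) := by
                rw [div_pow, div_pow]
                ring
            _ ≤ r^s * (3/8 * (l^2 * S / m)) := by
                have := num5 hs.le hr hr1 hrlow
                gcongr
        linarith
      calc cp * l^s ≤ (r^s * (3/4 * (l^2 * S / m))) * l^s := mul_le_mul_of_nonneg_right hcp hls.le
        _ ≤ (r^s * (3/4 * (l^2 * S / m))) * 1 := by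
            apply mul_le_mul_of_nonneg_left hls1
            positivity
        _ = r^s * (3/4 * (l^2 * S / m)) := mul_one _
        _ ≤ _ := hfin

end Pool.Agent.R331.UL
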