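import Pool.Agent.R331.UL.Crit
import Pool.Agent.R331.UL.Num
import Pool.Agent.R331.UL.Cop
import Pool.Agent.R331.UL.Count

set_option autoImplicit false

/-!
The open sets of points close to the special rational points have full dyadic content of every
order `s < 2/3`.
-/

namespace Pool.Agent.R331.UL

open Finset Filter Topology

def Uset (N : ℕ) : Set (ℝ × ℝ) := {x | ∃ w : List ℕ, (∀ a ∈ w, 2 ≤ a) ∧ (∀ a ∈ w, a ≤ 162) ∧ N ≤ (pr w).1 ∧
  ∃ a : ℕ, Nat.Coprime a (pr w).1 ∧ |x.1 - (ptw w a).1| < 1/20/((pr w).1:ℝ)^2 ∧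
    |x.2 - (ptw w a).2| < 1/20/((pr w).1:ℝ)^2}

theorem isOpen_Uset (N : ℕ) : IsOpen (Uset N) := by
  have e : Uset N = ⋃ w : List ℕ, ⋃ (_ : (∀ a ∈ w, 2 ≤ a) ∧ (∀ a ∈ w, a ≤ 162) ∧ N ≤ (pr w).1),
      ⋃ a : ℕ, ⋃ (_ : Nat.Coprime a (pr w).1), ({x : ℝ × ℝ | |x.1 - (ptw w a).1| < 1/20/((pr w).1:ℝ)^2} ∩
        {x : ℝ × ℝ | |x.2 - (ptw w a).2| < 1/20/((pr w).1:ℝ)^2}) := by
    ext x
    unfold Uset
    simp only [Set.mem_ofPred_eq, Set.mem_iUnion, Set.mem_inter_iff, exists_prop]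
    constructor
    · rintro ⟨w, h1, h2, h3, a, h4, h5⟩
      exact ⟨w, ⟨h1, h2, h3⟩, a, h4, h5⟩
    · rintro ⟨w, ⟨h1, h2, h3⟩, a, h4, h5⟩
      exact ⟨w, h1, h2, h3, a, h4, h5⟩
  rw [e]
  refine isOpen_iUnion fun w => isOpen_iUnion fun _ => isOpen_iUnion fun a => isOpen_iUnion fun _ => ?_
  apply IsOpen.inter
  · exact isOpen_lt (by fun_prop) continuous_const
  · exact isOpen_lt (by fun_prop) continuous_const

theorem ratio_gt {s : ℝ} (hs : s < 2/3) : 1 < 81/(729:ℝ)^s := by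
  rw [lt_div_iff₀ (by positivity), one_mul]
  calc (729:ℝ)^s < 729^((2:ℝ)/3) := Real.rpow_lt_rpow_of_exponent_lt (by norm_num) hs
    _ = 81 := by
      have : (729:ℝ) = 9^(3:ℝ) := by norm_num
      rw [this, ← Real.rpow_mul (by norm_num)]
      norm_num

theorem fiber_lower {ε l : ℝ} {j₀ n m : ℕ} (hm : m = (163^(2*j₀)).factorial) (hε : 0 < ε) (hεl : ε = l^2/16)
    {w : List ℕ} (hw : w ∈ Good ε j₀ n) (hbig : 4 * (m:ℝ)^2 / ε^2 ≤ (pr w).1) {L : Ix} (hL : D2 L ⊆ Sq)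
    [DecidablePred (fun a : ℕ => ptw w (1+m*a) ∈ D2 L)]
    [DecidablePred (fun a : ℕ => Nat.Coprime (1+m*a) (pr w).1 ∧ ptw w (1+m*a) ∈ D2 L)]
    (hk : 7/8 * (l^2 * (pr w).1 / m) ≤ (((range (pr w).1).filter (fun a : ℕ => ptw w (1+m*a) ∈ D2 L)).card : ℝ)) :
    3/4 * (l^2 * (pr w).1 / m) ≤
      (((range (pr w).1).filter (fun a : ℕ => Nat.Coprime (1+m*a) (pr w).1 ∧ ptw w (1+m*a) ∈ D2 L)).card : ℝ) := by
  classical
  have hwd := (mem_Good.mp hw).1
  have hQ1 : 1 ≤ (pr w).1 := pr_pos w (fun a ha => by have := Wd_two hwd a ha; omega)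
  have hQ0 : (0:ℝ) < (pr w).1 := by exact_mod_cast hQ1
  have hm0 : (0:ℝ) < m := by
    have : 0 < m := by rw [hm]; exact Nat.factorial_pos _
    exact_mod_cast this
  obtain ⟨Kw, hK1, hK2⟩ := cop_count hw m hm
  have h1 : (((range (pr w).1).filter (fun a : ℕ => ptw w (1+m*a) ∈ D2 L)).card : ℝ) ≤
      (((range (pr w).1).filter (fun a : ℕ => Nat.Coprime (1+m*a) (pr w).1 ∧ ptw w (1+m*a) ∈ D2 L)).card : ℝ) +
      (((range (pr w).1).filter (fun a => 1 + m * a < (pr w).1 ∧ ¬ Nat.Coprime (1 + m * a) (pr w).1)).card : ℝ) := by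
    have h2 : (range (pr w).1).filter (fun a : ℕ => ptw w (1+m*a) ∈ D2 L) ⊆
        (range (pr w).1).filter (fun a : ℕ => Nat.Coprime (1+m*a) (pr w).1 ∧ ptw w (1+m*a) ∈ D2 L) ∪
        (range (pr w).1).filter (fun a => 1 + m * a < (pr w).1 ∧ ¬ Nat.Coprime (1 + m * a) (pr w).1) := by
      intro a ha
      rw [mem_filter] at ha
      rw [mem_union, mem_filter, mem_filter]
      by_cases hc : Nat.Coprime (1+m*a) (pr w).1
      · left
        exact ⟨ha.1, hc, ha.2⟩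
      · right
        refine ⟨ha.1, ?_, hc⟩
        have h3 := (hL ha.2).1.2
        have e1 : (ptw w (1+m*a)).1 = ((1 + m * a : ℕ) : ℝ)/(pr w).1 := rfl
        rw [e1, div_lt_one hQ0] at h3
        exact_mod_cast h3
    have h3 := (card_le_card h2).trans (card_union_le _ _)
    exact_mod_cast h3
  have h2 : (Kw:ℝ) ≤ (pr w).1 / m * ε := by
    have h3 : (Kw:ℝ)^2 ≤ 4 * (pr w).1 := by exact_mod_cast hK1
    have h4 : 4 * ((pr w).1:ℝ) ≤ ((pr w).1 / m * ε)^2 := by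
      rw [div_le_iff₀ (by positivity)] at hbig
      have e : (((pr w).1:ℝ) / m * ε)^2 = (pr w).1 * ((pr w).1 * ε^2) / m^2 := by
        field_simp
      rw [e, le_div_iff₀ (by positivity)]
      calc 4 * ((pr w).1:ℝ) * m^2 = (pr w).1 * (4 * m^2) := by ring
        _ ≤ _ := by gcongr
    exact (abs_le_of_sq_le_sq' (h3.trans h4) (by positivity)).2
  have h3 : ((pr w).1:ℝ) / m * ε = 1/16 * (l^2 * (pr w).1 / m) := by
    rw [hεl]
    ring
  rw [h3] at h2 hK2
  linarith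

theorem full_U {s : ℝ} (hs0 : 0 < s) (hs : s < 2/3) (N : ℕ) : Full s (Uset N) := by
  classical
  apply full_of_points (ι := List ℕ × ℕ) hs0 (by linarith)
  intro L hL
  set l : ℝ := 1/2^L.1 with hl
  have hl0 : 0 < l := by positivity
  have hl1 : l ≤ 1 := by
    rw [hl, div_le_one (by positivity)]
    exact one_le_pow₀ (by norm_num)
  set ε : ℝ := l^2/16 with hε
  have hε0 : 0 < ε := by positivity
  obtain ⟨j₀, hj₀⟩ := pow_unbounded_of_one_lt (4 * 163^2 / ε) (show (1:ℝ) < 82 by norm_num)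
  have hj₀' : 4 * 163^2 ≤ ε * 82^j₀ := by
    rw [div_lt_iff₀ hε0] at hj₀
    linarith
  set m : ℕ := (163^(2*j₀)).factorial with hm
  have hm1 : 1 ≤ m := Nat.factorial_pos _
  have hm1r : (1:ℝ) ≤ m := by exact_mod_cast hm1
  have hm0r : (0:ℝ) < m := by linarith
  obtain ⟨K₁, hK₁⟩ := exists_pow_lt_of_lt_one (show 0 < 3/8 * l^2 / (m*164) by positivity) (by norm_num : (1:ℝ)/2 < 1)
  set K := max K₁ L.1 with hK
  obtain ⟨Q₀, hQ₀⟩ := kron m K hm1
  -- choose n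
  have E1 : ∀ᶠ n : ℕ in atTop, j₀ ≤ n := eventually_ge_atTop j₀
  have E2 : ∀ᶠ n : ℕ in atTop, (N:ℝ) + Q₀ + 4 * (m:ℝ)^2 / ε^2 + 2^L.1 ≤ 81^n :=
    (tendsto_pow_atTop_atTop_of_one_lt (show (1:ℝ) < 81 by norm_num)).eventually_ge_atTop _
  have E3 : ∀ᶠ n : ℕ in atTop, 16/3 * m / l^2 ≤ (81/(729:ℝ)^s)^n :=
    (tendsto_pow_atTop_atTop_of_one_lt (ratio_gt hs)).eventually_ge_atTop _
  have E4 : ∀ᶠ n : ℕ in atTop, 1 / (3/16 * (l^2 / m)) ≤ ((59049:ℝ)/26569)^n :=
    (tendsto_pow_atTop_atTop_of_one_lt (by norm_num)).eventually_ge_atTop _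
  have E5 : ∀ᶠ n : ℕ in atTop, 2 / (3/256 * (l^2/m)) ≤ ((6561:ℝ)/1296)^n :=
    (tendsto_pow_atTop_atTop_of_one_lt (by norm_num)).eventually_ge_atTop _
  obtain ⟨n, e1, e2, e3, e4, e5⟩ := (E1.and (E2.and (E3.and (E4.and E5)))).exists
  have n3 : ((26569:ℝ)/9)^n ≤ 3/16 * (l^2 / m) * 6561^n := by
    rw [div_le_iff₀ (by positivity)] at e4
    have h1 : (6561:ℝ)^n = (26569/9)^n * (59049/26569)^n := by
      rw [← mul_pow]
      norm_num
    rw [h1]
    calc ((26569:ℝ)/9)^n = (26569/9)^n * 1 := (mul_one _).symm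
      _ ≤ (26569/9)^n * ((59049/26569)^n * (3/16 * (l^2 / m))) := by gcongr
      _ = _ := by ring
  have n4 : 2 ≤ 3/256 * (l^2/m) * ((6561:ℝ)/1296)^n := by
    rw [div_le_iff₀ (by positivity)] at e5
    linarith
  have hbigpos : (0:ℝ) ≤ 4 * (m:ℝ)^2 / ε^2 := by positivity
  have hN81 : N ≤ 81^n := by
    have : (N:ℝ) ≤ 81^n := by
      have h1 : (0:ℝ) ≤ Q₀ := by positivity
      have h2 : (0:ℝ) ≤ 2^L.1 := by positivity
      linarith
    exact_mod_cast this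
  have hQ81 : Q₀ ≤ 81^n := by
    have : (Q₀:ℝ) ≤ 81^n := by
      have h1 : (0:ℝ) ≤ N := by positivity
      have h2 : (0:ℝ) ≤ 2^L.1 := by positivity
      linarith
    exact_mod_cast this
  have hb81 : 4 * (m:ℝ)^2 / ε^2 ≤ 81^n := by
    have h0 : (0:ℝ) ≤ Q₀ := by positivity
    have h1 : (0:ℝ) ≤ N := by positivity
    have h2 : (0:ℝ) ≤ 2^L.1 := by positivity
    linarith
  have hL81 : 2^L.1 ≤ 81^n := by
    have : (2:ℝ)^L.1 ≤ 81^n := by
      have h0 : (0:ℝ) ≤ Q₀ := by positivity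
      have h1 : (0:ℝ) ≤ N := by positivity
      linarith
    exact_mod_cast this
  -- level
  set n₀ := Nat.log 2 (20 * 163^(2*n)) + 1 with hn₀
  have hlog1 : 20 * 163^(2*n) < 2^n₀ := Nat.lt_pow_succ_log_self (by norm_num) _
  have hlog2 : 2^n₀ ≤ 40 * 163^(2*n) := by
    have := Nat.pow_log_le_self 2 (show 20 * 163^(2*n) ≠ 0 by positivity)
    rw [hn₀, pow_succ]
    omega
  have hlog1r : (20:ℝ) * 163^(2*n) < 2^n₀ := by exact_mod_cast hlog1
  have hlog2r : (2:ℝ)^n₀ ≤ 40 * 163^(2*n) := by exact_mod_cast hlog2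
  have hLn₀ : L.1 ≤ n₀ := by
    have h1 : 2^L.1 < 2^n₀ := by
      calc 2^L.1 ≤ 81^n := hL81
        _ ≤ 163^n := Nat.pow_le_pow_left (by norm_num) n
        _ ≤ 163^(2*n) := Nat.pow_le_pow_right (by norm_num) (by omega)
        _ ≤ 20 * 163^(2*n) := by omega
        _ < _ := hlog1
    exact ((Nat.pow_lt_pow_iff_right (by norm_num)).mp h1).le
  set G := Good ε j₀ n with hG
  have hGW : G ⊆ Wd n := fun w hw => (mem_Good.mp hw).1
  set S : ℝ := ∑ w ∈ G, ((pr w).1 : ℝ) with hSdef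
  set M : ℝ := (G.card : ℝ) with hMdef
  have hMS : M * 81^n ≤ S := by
    rw [hMdef, hSdef, ← nsmul_eq_mul, ← sum_const]
    apply sum_le_sum
    intro w hw
    exact_mod_cast Wd_lower (hGW hw)
  have hM1 : (82:ℝ)^n/2 ≤ M := card_Good hε0 e1 hj₀'
  have hS : (6561:ℝ)^n/2 ≤ S := by
    refine le_trans ?_ hMS
    have h1 : (81:ℝ)^n ≤ 82^n := pow_le_pow_left₀ (by norm_num) (by norm_num) n
    have h2 : (6561:ℝ)^n = 81^n * 81^n := by
      rw [← mul_pow]
      norm_num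
    rw [h2]
    calc (81:ℝ)^n * 81^n / 2 ≤ 82^n * 81^n / 2 := by gcongr
      _ = 82^n/2 * 81^n := by ring
      _ ≤ M * 81^n := by gcongr
  have hS0 : 0 < S := lt_of_lt_of_le (by positivity) hS
  have hQw : ∀ w ∈ G, Q₀ ≤ (pr w).1 := fun w hw => hQ81.trans (Wd_lower (hGW hw))
  have hlower : 3/4 * (l^2 * S / m) ≤ ((Fp G m L).card : ℝ) := by
    rw [card_Fp]
    push_cast
    have e : 3/4 * (l^2 * S / m) = ∑ w ∈ G, 3/4 * (l^2 * (pr w).1 / m) := by
      rw [hSdef, ← mul_sum, ← sum_div, ← mul_sum]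
    rw [e]
    apply sum_le_sum
    intro w hw
    refine fiber_lower hm hε0 hε hw ?_ hL ?_
    · refine hb81.trans ?_
      exact_mod_cast Wd_lower (hGW hw)
    · exact (hQ₀ w (Wd_two (hGW hw)) (Wd_le (hGW hw)) (hQw w hw) L (le_max_right _ _) hL).1
  refine ⟨Fp G m L, fun x => ptw x.1 (1 + m * x.2), n₀, hLn₀, ?_, ?_, ?_, ?_⟩
  · rw [← card_pos]
    have : (0:ℝ) < ((Fp G m L).card : ℝ) := lt_of_lt_of_le (by positivity) hlower
    exact_mod_cast this
  · intro x hx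
    exact (mem_Fp.mp hx).2.2.2
  · intro x hx y hy
    obtain ⟨hx1, hx2, hx3, hx4⟩ := mem_Fp.mp hx
    have hwd := hGW hx1
    refine ⟨x.1, Wd_two hwd, Wd_le hwd, hN81.trans (Wd_lower hwd), 1 + m * x.2, hx3, ?_⟩
    have hQ1 : 1 ≤ (pr x.1).1 := pr_pos x.1 (fun a ha => by have := Wd_two hwd a ha; omega)
    have hQ0 : (0:ℝ) < (pr x.1).1 := by exact_mod_cast hQ1
    have hR : ((pr x.1).1:ℝ) ≤ 163^n := by exact_mod_cast Wd_upper hwd
    have hself := mem_D2_idx (D2_nonneg hx4) n₀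
    rw [mem_D2_iff] at hy hself
    have hsmall : (1:ℝ)/2^n₀ < 1/20/((pr x.1).1:ℝ)^2 := by
      rw [div_div]
      apply one_div_lt_one_div_of_lt (by positivity)
      calc 20 * ((pr x.1).1:ℝ)^2 ≤ 20 * (163^n)^2 := by gcongr
        _ = 20 * 163^(2*n) := by rw [← pow_mul, mul_comm n 2]
        _ < _ := hlog1r
    have hlev : (idx2 n₀ (ptw x.1 (1 + m * x.2))).1 = n₀ := rfl
    rw [hlev] at hy hself
    obtain ⟨⟨h1, h2⟩, ⟨h3, h4⟩⟩ := hy
    obtain ⟨⟨h5, h6⟩, ⟨h7, h8⟩⟩ := hself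
    constructor
    · rw [abs_lt]
      constructor <;> linarith
    · rw [abs_lt]
      constructor <;> linarith
  · intro p hpL hpn
    have hset : {x : List ℕ × ℕ | x ∈ Fp G m L ∧ ptw x.1 (1 + m * x.2) ∈ D2 p} = (Fp G m p : Set (List ℕ × ℕ)) := by
      ext x
      rw [Set.mem_ofPred_eq, mem_coe, mem_Fp, mem_Fp]
      constructor
      · rintro ⟨⟨h1, h2, h3, _⟩, h5⟩
        exact ⟨h1, h2, h3, h5⟩
      · rintro ⟨h1, h2, h3, h5⟩
        exact ⟨⟨h1, h2, h3, hpL h5⟩, h5⟩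
    rw [hset]
    have hcard : Nat.card ((Fp G m p : Set (List ℕ × ℕ))) = (Fp G m p).card := by simp
    rw [hcard]
    have hlev := D2_level hpL
    rcases eq_or_lt_of_le hlev with heq | hlt
    · have : p = L := D2_inj (cor_mem p) (hpL (cor_mem p)) heq.symm
      subst this
      rw [mul_comm]
    · set r : ℝ := 1/2^p.1 with hr
      have hr0 : 0 < r := by positivity
      have hrl : r ≤ l/2 := by
        rw [hr, hl, div_div, ← pow_succ]
        apply one_div_le_one_div_of_le (by positivity)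
        exact pow_le_pow_right₀ (by norm_num) hlt
      have hrlow : 1/40/(163^(2*n)) ≤ r := by
        rw [div_div, hr]
        apply one_div_le_one_div_of_le (by positivity)
        refine le_trans ?_ hlog2r
        exact pow_le_pow_right₀ (by norm_num) hpn
      have hpS : D2 p ⊆ Sq := hpL.trans hL
      refine key_ineq (m := (m:ℝ)) (S := S) (M := M) (n := n) hs0.le hs hl0 hl1 hm1r hr0 hrl hS hMS hlower e3 n3 n4 hrlow ?_
      have hfib : ∀ w ∈ G, (((range (pr w).1).filter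
          (fun a : ℕ => Nat.Coprime (1+m*a) (pr w).1 ∧ ptw w (1+m*a) ∈ D2 p)).card : ℝ) ≤
          (((range (pr w).1).filter (fun a : ℕ => ptw w (1+m*a) ∈ D2 p)).card : ℝ) := by
        intro w _
        have : (range (pr w).1).filter (fun a : ℕ => Nat.Coprime (1+m*a) (pr w).1 ∧ ptw w (1+m*a) ∈ D2 p) ⊆
            (range (pr w).1).filter (fun a : ℕ => ptw w (1+m*a) ∈ D2 p) := by
          intro a ha
          rw [mem_filter] at ha ⊢
          exact ⟨ha.1, ha.2.2⟩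
        exact_mod_cast card_le_card this
      rcases le_or_gt p.1 K with hpK | hpK
      · left
        rw [card_Fp]
        push_cast
        have e : 9/8 * (r^2 * S / m) = ∑ w ∈ G, 9/8 * (r^2 * (pr w).1 / m) := by
          rw [hSdef, ← mul_sum, ← sum_div, ← mul_sum]
        rw [e]
        apply sum_le_sum
        intro w hw
        exact (hfib w hw).trans (hQ₀ w (Wd_two (hGW hw)) (Wd_le (hGW hw)) (hQw w hw) p hpK hpS).2
      · right
        refine ⟨?_, ?_, fun h => small_count hm1 G hGW p h⟩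
        · refine le_trans ?_ hK₁.le
          rw [hr, ← one_div_pow]
          apply pow_le_pow_of_le_one (by norm_num) (by norm_num)
          exact (le_max_left _ _).trans hpK.le
        · rw [card_Fp]
          push_cast
          have e : 164 * r^2 * S + 2 * M = ∑ w ∈ G, (164 * r^2 * (pr w).1 + 2) := by
            rw [sum_add_distrib, ← mul_sum, sum_const, nsmul_eq_mul, hMdef, mul_comm 2]
          rw [e]
          apply sum_le_sum
          intro w hw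
          exact (hfib w hw).trans (gap_count w (Wd_two (hGW hw)) (Wd_le (hGW hw)) m hm1 p hpS)

end Pool.Agent.R331.UL
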