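import Pool.Agent.R331.MT.Two

set_option autoImplicit false

/-!
Intersections of open subsets of the plane with full dyadic content, by a nested-square game.
-/

namespace Pool.Agent.R331.UL

open MeasureTheory Filter Topology Set
open scoped ENNReal
open Pool.Agent.R331.MT (D Dc idx mem_D_iff D_nonneg mem_D_idx D_nonempty)

/-- index of a dyadic square: level and position -/
abbrev Ix := ℕ × (ℕ × ℕ)

/-- dyadic square -/
def D2 (p : Ix) : Set (ℝ × ℝ) := D (p.1, p.2.1) ×ˢ D (p.1, p.2.2)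

def Dc2 (p : Ix) : Set (ℝ × ℝ) := Dc (p.1, p.2.1) ×ˢ Dc (p.1, p.2.2)

noncomputable def idx2 (n : ℕ) (x : ℝ × ℝ) : Ix := (n, (idx n x.1, idx n x.2))

/-- corner of a square -/
noncomputable def cor (p : Ix) : ℝ × ℝ := ((p.2.1:ℝ) / 2^p.1, (p.2.2:ℝ) / 2^p.1)

theorem cor_mem (p : Ix) : cor p ∈ D2 p := ⟨D_nonempty (p.1, p.2.1), D_nonempty (p.1, p.2.2)⟩

theorem D2_nonneg {p : Ix} {x : ℝ × ℝ} (h : x ∈ D2 p) : 0 ≤ x.1 ∧ 0 ≤ x.2 := ⟨D_nonneg h.1, D_nonneg h.2⟩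

theorem mem_D2_idx {x : ℝ × ℝ} (hx : 0 ≤ x.1 ∧ 0 ≤ x.2) (n : ℕ) : x ∈ D2 (idx2 n x) :=
  ⟨mem_D_idx hx.1 n, mem_D_idx hx.2 n⟩

theorem D2_nested {p q : Ix} {x : ℝ × ℝ} (hp : x ∈ D2 p) (hq : x ∈ D2 q) (h : q.1 ≤ p.1) : D2 p ⊆ D2 q :=
  Set.prod_mono (MT.D_nested (p := (p.1, p.2.1)) (q := (q.1, q.2.1)) hp.1 hq.1 h)
    (MT.D_nested (p := (p.1, p.2.2)) (q := (q.1, q.2.2)) hp.2 hq.2 h)

theorem D2_level {p q : Ix} (h : D2 p ⊆ D2 q) : q.1 ≤ p.1 := by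
  have h1 : D (p.1, p.2.1) ⊆ D (q.1, q.2.1) := by
    intro y hy
    have : (y, (cor p).2) ∈ D2 p := ⟨hy, (cor_mem p).2⟩
    exact (h this).1
  exact MT.D_level h1

theorem D2_inj {p q : Ix} {x : ℝ × ℝ} (hp : x ∈ D2 p) (hq : x ∈ D2 q) (h : p.1 = q.1) : p = q := by
  have h1 := MT.D_inj (p := (p.1, p.2.1)) (q := (q.1, q.2.1)) hp.1 hq.1 h
  have h2 := MT.D_inj (p := (p.1, p.2.2)) (q := (q.1, q.2.2)) hp.2 hq.2 h
  obtain ⟨n, a, b⟩ := p
  obtain ⟨m, c, d⟩ := q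
  simp only [Prod.mk.injEq] at h1 h2 ⊢
  exact ⟨h1.1, h1.2, h2.2⟩

noncomputable def wt (s : ℝ) (p : Ix) : ℝ≥0∞ := ENNReal.ofReal (1 / 2^p.1) ^ s

/-- total weight of a set of dyadic indices -/
noncomputable def W (s : ℝ) (T : Set Ix) : ℝ≥0∞ := ∑' p, T.indicator (wt s) p

theorem W_mono {s : ℝ} {T T' : Set Ix} (h : T ⊆ T') : W s T ≤ W s T' :=
  ENNReal.tsum_le_tsum fun _ => Set.indicator_le_indicator_of_subset h (fun _ => zero_le) _

theorem W_union {s : ℝ} (T T' : Set Ix) : W s (T ∪ T') ≤ W s T + W s T' := by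
  unfold W
  rw [← ENNReal.tsum_add]
  apply ENNReal.tsum_le_tsum
  intro p
  by_cases hp1 : p ∈ T
  · rw [Set.indicator_of_mem (show p ∈ T ∪ T' from Or.inl hp1), Set.indicator_of_mem hp1]
    exact le_self_add
  · by_cases hp2 : p ∈ T'
    · rw [Set.indicator_of_mem (show p ∈ T ∪ T' from Or.inr hp2), Set.indicator_of_mem hp2]
      exact le_add_self
    · rw [Set.indicator_of_notMem (by rintro (h | h); exact hp1 h; exact hp2 h)]
      exact zero_le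

theorem W_disj {s : ℝ} {T T' S : Set Ix} (h : T ⊆ S) (h' : T' ⊆ S) (hd : ∀ p ∈ T, p ∉ T') :
    W s T + W s T' ≤ W s S := by
  unfold W
  rw [← ENNReal.tsum_add]
  apply ENNReal.tsum_le_tsum
  intro p
  by_cases hp1 : p ∈ T
  · rw [Set.indicator_of_mem (h hp1), Set.indicator_of_mem hp1, Set.indicator_of_notMem (hd p hp1), add_zero]
  · rw [Set.indicator_of_notMem hp1, zero_add]
    exact Set.indicator_le_indicator_of_subset h' (fun _ => zero_le) _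

/-- the half-open unit square -/
def Sq : Set (ℝ × ℝ) := Ico (0:ℝ) 1 ×ˢ Ico (0:ℝ) 1

/-- full content property of `U` -/
def Full (s : ℝ) (U : Set (ℝ × ℝ)) : Prop := ∀ L : Ix, D2 L ⊆ Sq → ∀ T : Set Ix,
  (∀ y ∈ D2 L, y ∈ U → ∃ p ∈ T, y ∈ D2 p) → wt s L ≤ W s T

def Unsat (s : ℝ) (T : Set Ix) (L : Ix) : Prop :=
  (∀ J ∈ T, ¬ D2 L ⊆ D2 J) ∧ W s {J | J ∈ T ∧ D2 J ⊆ D2 L} < wt s L

theorem game_step {s : ℝ} {T : Set Ix} {U : Set (ℝ × ℝ)} (hU : IsOpen U) (hF : Full s U) {L : Ix}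
    (hL : Unsat s T L) (hL1 : D2 L ⊆ Sq) :
    ∃ L', D2 L' ⊆ D2 L ∧ Dc2 L' ⊆ U ∧ L.1 < L'.1 ∧ Unsat s T L' := by
  classical
  by_contra hno
  push Not at hno
  set A : Set Ix := {L' | D2 L' ⊆ D2 L ∧ Dc2 L' ⊆ U ∧ L.1 < L'.1} with hA
  set Mx : Set Ix := {L' | L' ∈ A ∧ (∀ L'' ∈ A, D2 L' ⊆ D2 L'' → L'' = L') ∧ ∀ J ∈ T, ¬ D2 L' ⊆ D2 J} with hMx
  set T' : Set Ix := {J | J ∈ T ∧ D2 J ⊆ D2 L ∧ ∀ L' ∈ Mx, ¬ D2 J ⊆ D2 L'} with hT'
  have hcover : ∀ y ∈ D2 L, y ∈ U → ∃ p ∈ Mx ∪ T', y ∈ D2 p := by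
    intro y hyL hyU
    have hy0 := D2_nonneg hyL
    have hex : ∃ n, idx2 n y ∈ A := by
      obtain ⟨ε, hε, hball⟩ := Metric.isOpen_iff.mp hU y hyU
      obtain ⟨n₀, hn₀⟩ := exists_pow_lt_of_lt_one hε (by norm_num : (1:ℝ)/2 < 1)
      set n := max n₀ (L.1 + 1) with hn
      refine ⟨n, ?_, ?_, ?_⟩
      · exact D2_nested (mem_D2_idx hy0 n) hyL (by show L.1 ≤ n; omega)
      · intro z hz
        apply hball
        have hyn := mem_D2_idx hy0 n
        have h5 : (1:ℝ) / 2^n < ε := by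
          calc (1:ℝ) / 2^n = (1/2)^n := by rw [div_pow, one_pow]
            _ ≤ (1/2)^n₀ := pow_le_pow_of_le_one (by norm_num) (by norm_num) (le_max_left _ _)
            _ < ε := hn₀
        have aux : ∀ (k : ℕ) (u v : ℝ), u ∈ Dc (n, k) → v ∈ D (n, k) → |u - v| < ε := by
          intro k u v hu hv
          have h1 := hu.1
          have h2 := hu.2
          have h3 := hv.1
          have h4 := hv.2
          simp only at h1 h2 h3 h4
          rw [add_div] at h2 h4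
          rw [abs_lt]
          constructor <;> linarith
        rw [Metric.mem_ball, Prod.dist_eq, Real.dist_eq, Real.dist_eq]
        exact max_lt (aux _ _ _ hz.1 hyn.1) (aux _ _ _ hz.2 hyn.2)
      · show L.1 < n
        omega
    have hmem := Nat.find_spec hex
    set n := Nat.find hex with hn
    set L' : Ix := idx2 n y with hL'
    have hyL' : y ∈ D2 L' := mem_D2_idx hy0 n
    have hmax : ∀ L'' ∈ A, D2 L' ⊆ D2 L'' → L'' = L' := by
      intro L'' hL'' hsub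
      have hy'' : y ∈ D2 L'' := hsub hyL'
      have h1 : L''.1 ≤ n := D2_level hsub
      have h2 : n ≤ L''.1 := by
        apply Nat.find_min'
        have : idx2 L''.1 y = L'' := D2_inj (mem_D2_idx hy0 _) hy'' rfl
        rw [this]
        exact hL''
      exact D2_inj hy'' hyL' (le_antisymm h1 h2)
    by_cases hJ : ∀ J ∈ T, ¬ D2 L' ⊆ D2 J
    · exact ⟨L', Or.inl ⟨hmem, hmax, hJ⟩, hyL'⟩
    · push Not at hJ
      obtain ⟨J, hJT, hsub⟩ := hJ
      have hyJ : y ∈ D2 J := hsub hyL'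
      have hlev : L.1 < J.1 := by
        by_contra hcon
        push Not at hcon
        exact hL.1 J hJT (D2_nested hyL hyJ hcon)
      have hJL : D2 J ⊆ D2 L := D2_nested hyJ hyL hlev.le
      by_cases hin : ∃ L'' ∈ Mx, D2 J ⊆ D2 L''
      · obtain ⟨L'', h1, h2⟩ := hin
        exact ⟨L'', Or.inl h1, h2 hyJ⟩
      · push Not at hin
        exact ⟨J, Or.inr ⟨hJT, hJL, hin⟩, hyJ⟩
  have h1 := hF L hL1 (Mx ∪ T') hcover
  -- weights
  have hMw : ∀ L' ∈ Mx, wt s L' ≤ W s {J | J ∈ T ∧ D2 J ⊆ D2 L'} := by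
    intro L' hL'
    obtain ⟨⟨a1, a2, a3⟩, _, a4⟩ := hL'
    have := hno L' a1 a2 a3
    unfold Unsat at this
    rw [not_and] at this
    exact not_lt.mp (this a4)
  have hdisj : ∀ J : Ix, ∀ L₁ ∈ Mx, ∀ L₂ ∈ Mx, D2 J ⊆ D2 L₁ → D2 J ⊆ D2 L₂ → L₁ = L₂ := by
    intro J L₁ h₁ L₂ h₂ s₁ s₂
    have x₁ := s₁ (cor_mem J)
    have x₂ := s₂ (cor_mem J)
    rcases le_total L₁.1 L₂.1 with h | h
    · exact h₂.2.1 L₁ h₁.1 (D2_nested x₂ x₁ h)
    · exact (h₁.2.1 L₂ h₂.1 (D2_nested x₁ x₂ h)).symm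
  have h2 : W s Mx ≤ W s {J | J ∈ T ∧ D2 J ⊆ D2 L ∧ ∃ L' ∈ Mx, D2 J ⊆ D2 L'} := by
    calc W s Mx ≤ ∑' L', ∑' J, ({x : Ix × Ix | x.1 ∈ Mx ∧ x.2 ∈ T ∧ D2 x.2 ⊆ D2 x.1}).indicator
            (fun x => wt s x.2) (L', J) := by
          unfold W
          apply ENNReal.tsum_le_tsum
          intro L'
          by_cases hL' : L' ∈ Mx
          · rw [Set.indicator_of_mem hL']
            refine (hMw L' hL').trans (le_of_eq ?_)
            unfold W
            apply tsum_congr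
            intro J
            by_cases hc : J ∈ T ∧ D2 J ⊆ D2 L'
            · rw [Set.indicator_of_mem (show J ∈ {J | J ∈ T ∧ D2 J ⊆ D2 L'} from hc),
                Set.indicator_of_mem (show (L', J) ∈ {x : Ix × Ix | x.1 ∈ Mx ∧ x.2 ∈ T ∧ D2 x.2 ⊆ D2 x.1} from ⟨hL', hc⟩)]
            · rw [Set.indicator_of_notMem (show J ∉ {J | J ∈ T ∧ D2 J ⊆ D2 L'} from hc),
                Set.indicator_of_notMem (show (L', J) ∉ {x : Ix × Ix | x.1 ∈ Mx ∧ x.2 ∈ T ∧ D2 x.2 ⊆ D2 x.1} from fun h => hc h.2)]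
          · rw [Set.indicator_of_notMem hL']
            exact zero_le
      _ = ∑' J, ∑' L', ({x : Ix × Ix | x.1 ∈ Mx ∧ x.2 ∈ T ∧ D2 x.2 ⊆ D2 x.1}).indicator
            (fun x => wt s x.2) (L', J) := ENNReal.tsum_comm
      _ ≤ _ := by
          unfold W
          apply ENNReal.tsum_le_tsum
          intro J
          by_cases hc : ∃ L' ∈ Mx, J ∈ T ∧ D2 J ⊆ D2 L'
          · obtain ⟨L', hL', hJT, hJL'⟩ := hc
            rw [tsum_eq_single L']
            · rw [Set.indicator_of_mem (show (L', J) ∈ {x : Ix × Ix | x.1 ∈ Mx ∧ x.2 ∈ T ∧ D2 x.2 ⊆ D2 x.1} from ⟨hL', hJT, hJL'⟩),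
                Set.indicator_of_mem (show J ∈ {J | J ∈ T ∧ D2 J ⊆ D2 L ∧ ∃ L' ∈ Mx, D2 J ⊆ D2 L'} from
                  ⟨hJT, hJL'.trans hL'.1.1, L', hL', hJL'⟩)]
            · intro L'' hne
              rw [Set.indicator_of_notMem]
              rintro ⟨a1, a2, a3⟩
              exact hne (hdisj J L'' a1 L' hL' a3 hJL')
          · have : ∑' L', ({x : Ix × Ix | x.1 ∈ Mx ∧ x.2 ∈ T ∧ D2 x.2 ⊆ D2 x.1}).indicator
                (fun x => wt s x.2) (L', J) = 0 := by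
              rw [ENNReal.tsum_eq_zero]
              intro L'
              rw [Set.indicator_of_notMem]
              rintro ⟨a1, a2, a3⟩
              exact hc ⟨L', a1, a2, a3⟩
            rw [this]
            exact zero_le
  have h3 : W s (Mx ∪ T') ≤ W s Mx + W s T' := W_union _ _
  have h4 : W s {J | J ∈ T ∧ D2 J ⊆ D2 L ∧ ∃ L' ∈ Mx, D2 J ⊆ D2 L'} + W s T' ≤ W s {J | J ∈ T ∧ D2 J ⊆ D2 L} := by
    apply W_disj
    · exact fun J hJ => ⟨hJ.1, hJ.2.1⟩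
    · exact fun J hJ => ⟨hJ.1, hJ.2.1⟩
    · intro J hJ hJ'
      obtain ⟨L', hL', hsub⟩ := hJ.2.2
      exact hJ'.2.2 L' hL' hsub
  have h5 : wt s L ≤ W s {J | J ∈ T ∧ D2 J ⊆ D2 L} :=
    h1.trans (h3.trans ((add_le_add_left h2 _).trans h4))
  exact absurd h5 (not_le.mpr hL.2)

/-- the nested sequence produces a point of the intersection avoiding the family `T` -/
theorem game {s : ℝ} {T : Set Ix} (U : ℕ → Set (ℝ × ℝ)) (hU : ∀ n, IsOpen (U n)) (hF : ∀ n, Full s (U n))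
    (hT : W s T < 1) : ∃ x ∈ Icc (0:ℝ) 1 ×ˢ Icc (0:ℝ) 1, (∀ n, x ∈ U n) ∧
      ∀ m : ℕ, ∃ L : Ix, m ≤ L.1 ∧ x ∈ Dc2 L ∧ D2 L ⊆ Sq ∧ ∀ J ∈ T, ¬ D2 L ⊆ D2 J := by
  classical
  have h00 : D2 (0, (0, 0)) = Sq := by
    unfold D2 Sq MT.D
    norm_num
  have hw0 : wt s (0, (0, 0)) = 1 := by
    unfold wt
    norm_num
  have hinit : Unsat s T (0, (0, 0)) := by
    refine ⟨fun J hJ hsub => ?_, ?_⟩
    · have h1 : J.1 = 0 := Nat.le_zero.mp (D2_level hsub)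
      have h2 : wt s J = 1 := by
        unfold wt
        rw [h1]
        norm_num
      have h3 : wt s J ≤ W s T := by
        unfold W
        refine le_trans (le_of_eq ?_) (ENNReal.le_tsum J)
        rw [Set.indicator_of_mem hJ]
      rw [h2] at h3
      exact absurd h3 (not_le.mpr hT)
    · rw [hw0]
      exact (W_mono (fun J hJ => hJ.1)).trans_lt hT
  -- choose the sequence
  have hstep : ∀ (n : ℕ) (L : {L : Ix // Unsat s T L ∧ D2 L ⊆ Sq}),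
      ∃ L' : {L : Ix // Unsat s T L ∧ D2 L ⊆ Sq}, D2 L'.1 ⊆ D2 L.1 ∧ Dc2 L'.1 ⊆ U n ∧ L.1.1 < L'.1.1 := by
    intro n L
    obtain ⟨L', h1, h2, h3, h4⟩ := game_step (hU n) (hF n) L.2.1 L.2.2
    exact ⟨⟨L', h4, h1.trans L.2.2⟩, h1, h2, h3⟩
  choose g hg1 hg2 hg3 using hstep
  let Ls : ℕ → {L : Ix // Unsat s T L ∧ D2 L ⊆ Sq} :=
    fun n => Nat.rec ⟨(0, (0, 0)), hinit, h00.le⟩ (fun n L => g n L) n
  have hLs : ∀ n, Ls (n+1) = g n (Ls n) := fun n => rfl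
  have hlev : ∀ n, n ≤ (Ls n).1.1 := by
    intro n
    induction n with
    | zero => exact Nat.zero_le _
    | succ n ih =>
      have := hg3 n (Ls n)
      rw [hLs]
      omega
  have hcl : ∀ p : Ix, closure (D2 p) = Dc2 p := by
    intro p
    unfold D2 Dc2
    rw [closure_prod_eq]
    have e : ∀ q : ℕ × ℕ, closure (D q) = Dc q := by
      intro q
      unfold MT.D MT.Dc
      apply closure_Ico
      have : (q.2:ℝ) / 2^q.1 < ((q.2:ℝ)+1) / 2^q.1 := by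
        apply div_lt_div_of_pos_right _ (by positivity)
        linarith
      exact this.ne
    rw [e, e]
  have hDc : ∀ p q : Ix, D2 p ⊆ D2 q → Dc2 p ⊆ Dc2 q := by
    intro p q h
    rw [← hcl, ← hcl]
    exact closure_mono h
  have hcpt : ∀ p : Ix, IsCompact (Dc2 p) := by
    intro p
    unfold Dc2 MT.Dc
    exact isCompact_Icc.prod isCompact_Icc
  have hne : (⋂ n, Dc2 (Ls n).1).Nonempty := by
    apply IsCompact.nonempty_iInter_of_sequence_nonempty_isCompact_isClosed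
    · intro n
      rw [hLs]
      exact hDc _ _ (hg1 n (Ls n))
    · intro n
      rw [← hcl]
      exact ⟨_, subset_closure (cor_mem _)⟩
    · exact hcpt _
    · intro n
      exact (hcpt _).isClosed
  obtain ⟨x, hx⟩ := hne
  rw [mem_iInter] at hx
  refine ⟨x, ?_, ?_, ?_⟩
  · have := hx 0
    unfold Dc2 MT.Dc at this
    have e : (Ls 0).1 = (0, (0, 0)) := rfl
    rw [e] at this
    simpa using this
  · intro n
    have := hx (n+1)
    rw [hLs] at this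
    exact hg2 n (Ls n) this
  · intro m
    exact ⟨(Ls m).1, hlev m, hx m, (Ls m).2.2, (Ls m).2.1.1⟩

end Pool.Agent.R331.UL
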