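import Pool.Agent.R331.UL.Cont
import Pool.Agent.R331.UL.Game

set_option autoImplicit false

/-!
Counting of the points `(a/Q, {α a/Q})`, `a ≡ 1 mod m`, in a fixed square.
-/

namespace Pool.Agent.R331.UL

open Finset

theorem block_le (θ β : ℝ) (h : ℤ) (D : ℕ) (hD : 0 < D) (hcop : IsCoprime (D:ℤ) h)
    (happ : |θ - h/D| * D^2 ≤ 1) (u : ℕ) (y r : ℝ) (hr : 0 ≤ r) :
    (((Ico u (u+D)).filter (fun i : ℕ => Int.fract (θ*i+β) ∈ Set.Ico y (y+r))).card : ℝ) ≤ r*D+3 := by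
  classical
  have hD0 : (0:ℝ) < D := by exact_mod_cast hD
  set c : ℝ := θ * u + β with hc
  set t : ℕ → ℤ := fun i => h * ((i:ℤ) - u) - D * ⌊θ*i+β⌋ with ht
  have hkey : ∀ i ∈ Ico u (u+D), |D * Int.fract (θ*i+β) - D * c - t i| ≤ 1 := by
    intro i hi
    rw [mem_Ico] at hi
    have h1 : (0:ℝ) ≤ (i:ℝ) - u := by
      have : (u:ℝ) ≤ i := by exact_mod_cast hi.1
      linarith
    have h2 : (i:ℝ) - u ≤ D := by
      have : (i:ℝ) ≤ u + D := by exact_mod_cast hi.2.le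
      linarith
    have e : (D:ℝ) * Int.fract (θ*i+β) - D * c - t i = D * ((θ - h/D) * ((i:ℝ) - u)) := by
      rw [ht, hc, Int.fract]
      push_cast
      field_simp
      ring
    rw [e, abs_mul, abs_mul, abs_of_pos hD0, abs_of_nonneg h1]
    calc (D:ℝ) * (|θ - h/D| * ((i:ℝ) - u)) ≤ D * (|θ - h/D| * D) := by gcongr
      _ = |θ - h/D| * D^2 := by ring
      _ ≤ 1 := happ
  have hcard : ((Ico u (u+D)).filter (fun i : ℕ => Int.fract (θ*i+β) ∈ Set.Ico y (y+r))).card ≤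
      (Ico ⌈D*(y-c)-1⌉ ⌈D*(y+r-c)+1⌉).card := by
    apply card_le_card_of_injOn t
    · intro i hi
      rw [coe_filter, Set.mem_ofPred_eq] at hi
      have h1 := hkey i hi.1
      obtain ⟨h2, h3⟩ := hi.2
      rw [abs_le] at h1
      rw [coe_Ico, Set.mem_Ico]
      constructor
      · rw [Int.ceil_le]
        nlinarith [mul_le_mul_of_nonneg_left h2 hD0.le]
      · rw [Int.lt_ceil]
        nlinarith [mul_lt_mul_of_pos_left h3 hD0]
    · intro i hi j hj hij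
      rw [coe_filter, Set.mem_ofPred_eq, mem_Ico] at hi hj
      simp only [ht] at hij
      have h1 : (D:ℤ) ∣ h * ((i:ℤ) - j) := by
        refine ⟨⌊θ*i+β⌋ - ⌊θ*j+β⌋, ?_⟩
        linear_combination hij
      have h2 : (D:ℤ) ∣ (i:ℤ) - j := hcop.dvd_of_dvd_mul_left h1
      have h3 : (i:ℤ) - j = 0 := by
        apply Int.eq_zero_of_abs_lt_dvd h2
        rw [abs_lt]
        omega
      omega
  have h1 : (((Ico u (u+D)).filter (fun i : ℕ => Int.fract (θ*i+β) ∈ Set.Ico y (y+r))).card : ℝ) ≤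
      ((Ico ⌈D*(y-c)-1⌉ ⌈D*(y+r-c)+1⌉).card : ℝ) := by exact_mod_cast hcard
  refine h1.trans ?_
  rw [Int.card_Ico]
  have h2 : (((⌈D*(y+r-c)+1⌉ - ⌈D*(y-c)-1⌉).toNat : ℤ) : ℝ) ≤ r*D+3 := by
    rw [Int.toNat_eq_max, Int.cast_max]
    apply max_le
    · push_cast
      have h3 := Int.ceil_lt_add_one ((D:ℝ)*(y+r-c)+1)
      have h4 := Int.le_ceil ((D:ℝ)*(y-c)-1)
      nlinarith
    · push_cast
      positivity
  exact_mod_cast h2

theorem block_ge (θ β : ℝ) (h : ℤ) (D : ℕ) (hD : 0 < D) (hcop : IsCoprime (D:ℤ) h)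
    (happ : |θ - h/D| * D^2 ≤ 1) (u : ℕ) (y r : ℝ) (hr : 0 ≤ r) (hy : 0 ≤ y) (hyr : y + r ≤ 1) :
    r*D-6 ≤ (((Ico u (u+D)).filter (fun i : ℕ => Int.fract (θ*i+β) ∈ Set.Ico y (y+r))).card : ℝ) := by
  classical
  have h1 := block_le θ β h D hD hcop happ u 0 y hy
  have h2 := block_le θ β h D hD hcop happ u (y+r) (1-(y+r)) (by linarith)
  have h3 : (Ico u (u+D)).card ≤
      ((Ico u (u+D)).filter (fun i : ℕ => Int.fract (θ*i+β) ∈ Set.Ico y (y+r))).card +
      (((Ico u (u+D)).filter (fun i : ℕ => Int.fract (θ*i+β) ∈ Set.Ico 0 (0+y))).card +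
      ((Ico u (u+D)).filter (fun i : ℕ => Int.fract (θ*i+β) ∈ Set.Ico (y+r) (y+r+(1-(y+r))))).card) := by
    refine le_trans ?_ (Nat.add_le_add_left (card_union_le _ _) _)
    refine le_trans ?_ (card_union_le _ _)
    apply card_le_card
    intro i hi
    rw [mem_union, mem_union, mem_filter, mem_filter, mem_filter]
    have h4 := Int.fract_nonneg (θ*i+β)
    have h5 := Int.fract_lt_one (θ*i+β)
    rcases lt_or_ge (Int.fract (θ*i+β)) y with h6 | h6
    · right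
      left
      exact ⟨hi, h4, by linarith⟩
    · rcases lt_or_ge (Int.fract (θ*i+β)) (y+r) with h7 | h7
      · left
        exact ⟨hi, h6, h7⟩
      · right
        right
        exact ⟨hi, h7, by linarith⟩
  rw [Nat.card_Ico] at h3
  have h4 : (D:ℝ) ≤ (((Ico u (u+D)).filter (fun i : ℕ => Int.fract (θ*i+β) ∈ Set.Ico y (y+r))).card : ℝ) +
      ((((Ico u (u+D)).filter (fun i : ℕ => Int.fract (θ*i+β) ∈ Set.Ico 0 (0+y))).card : ℝ) +
      (((Ico u (u+D)).filter (fun i : ℕ => Int.fract (θ*i+β) ∈ Set.Ico (y+r) (y+r+(1-(y+r))))).card : ℝ)) := by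
    have : u + D - u = D := by omega
    rw [this] at h3
    exact_mod_cast h3
  linarith

theorem blocks_eq_le (P : ℕ → Prop) [DecidablePred P] (D : ℕ) (M : ℝ)
    (h : ∀ u, (((Ico u (u+D)).filter P).card : ℝ) ≤ M) (U K : ℕ) :
    (((Ico U (U+K*D)).filter P).card : ℝ) ≤ K * M := by
  induction K with
  | zero => simp
  | succ K ih =>
    have h1 : (Ico U (U+(K+1)*D)).filter P ⊆ (Ico U (U+K*D)).filter P ∪ (Ico (U+K*D) (U+K*D+D)).filter P := by
      intro i hi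
      rw [mem_filter, mem_Ico] at hi
      rw [mem_union, mem_filter, mem_filter, mem_Ico, mem_Ico]
      rcases lt_or_ge i (U+K*D) with h2 | h2
      · left
        exact ⟨⟨hi.1.1, h2⟩, hi.2⟩
      · right
        refine ⟨⟨h2, ?_⟩, hi.2⟩
        have : (K+1)*D = K*D+D := by ring
        omega
    have h2 := (card_le_card h1).trans (card_union_le _ _)
    have h3 : (((Ico U (U+(K+1)*D)).filter P).card : ℝ) ≤
        (((Ico U (U+K*D)).filter P).card : ℝ) + (((Ico (U+K*D) (U+K*D+D)).filter P).card : ℝ) := by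
      exact_mod_cast h2
    have h4 := h (U+K*D)
    push_cast
    linarith

theorem blocks_eq_ge (P : ℕ → Prop) [DecidablePred P] (D : ℕ) (M : ℝ)
    (h : ∀ u, M ≤ (((Ico u (u+D)).filter P).card : ℝ)) (U K : ℕ) :
    K * M ≤ (((Ico U (U+K*D)).filter P).card : ℝ) := by
  induction K with
  | zero => simp
  | succ K ih =>
    have hdisj : Disjoint ((Ico U (U+K*D)).filter P) ((Ico (U+K*D) (U+K*D+D)).filter P) := by
      apply disjoint_filter_filter
      rw [disjoint_left]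
      intro i hi hi'
      rw [mem_Ico] at hi hi'
      omega
    have h1 : (Ico U (U+K*D)).filter P ∪ (Ico (U+K*D) (U+K*D+D)).filter P ⊆ (Ico U (U+(K+1)*D)).filter P := by
      intro i hi
      have : (K+1)*D = K*D+D := by ring
      rw [mem_union, mem_filter, mem_filter, mem_Ico, mem_Ico] at hi
      rw [mem_filter, mem_Ico]
      rcases hi with hi | hi
      · exact ⟨⟨hi.1.1, by omega⟩, hi.2⟩
      · exact ⟨⟨by omega, by omega⟩, hi.2⟩
    have h2 := card_le_card h1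
    rw [card_union_of_disjoint hdisj] at h2
    have h3 : (((Ico U (U+K*D)).filter P).card : ℝ) + (((Ico (U+K*D) (U+K*D+D)).filter P).card : ℝ) ≤
        (((Ico U (U+(K+1)*D)).filter P).card : ℝ) := by
      exact_mod_cast h2
    have h4 := h (U+K*D)
    push_cast
    linarith

theorem blocks_le (P : ℕ → Prop) [DecidablePred P] (D : ℕ) (hD : 0 < D) (M : ℝ) (hM : 0 ≤ M)
    (h : ∀ u, (((Ico u (u+D)).filter P).card : ℝ) ≤ M) (U N : ℕ) :
    (((Ico U (U+N)).filter P).card : ℝ) ≤ ((N:ℝ)/D + 1) * M := by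
  have h1 : (Ico U (U+N)).filter P ⊆ (Ico U (U+(N/D+1)*D)).filter P := by
    apply filter_subset_filter
    apply Ico_subset_Ico_right
    have h2 := Nat.div_add_mod N D
    have h3 := Nat.mod_lt N hD
    have : (N/D+1)*D = D*(N/D)+D := by ring
    omega
  have h2 : (((Ico U (U+N)).filter P).card : ℝ) ≤ (((Ico U (U+(N/D+1)*D)).filter P).card : ℝ) := by
    exact_mod_cast card_le_card h1
  refine h2.trans ((blocks_eq_le P D M h U (N/D+1)).trans ?_)
  apply mul_le_mul_of_nonneg_right _ hM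
  push_cast
  have : ((N/D : ℕ) : ℝ) ≤ (N:ℝ)/D := Nat.cast_div_le
  linarith

theorem blocks_ge (P : ℕ → Prop) [DecidablePred P] (D : ℕ) (hD : 0 < D) (M : ℝ) (hM : 0 ≤ M)
    (h : ∀ u, M ≤ (((Ico u (u+D)).filter P).card : ℝ)) (U N : ℕ) :
    ((N:ℝ)/D - 1) * M ≤ (((Ico U (U+N)).filter P).card : ℝ) := by
  have hD0 : (0:ℝ) < D := by exact_mod_cast hD
  have h1 : (Ico U (U+(N/D)*D)).filter P ⊆ (Ico U (U+N)).filter P := by
    apply filter_subset_filter
    apply Ico_subset_Ico_right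
    have h2 := Nat.div_mul_le_self N D
    omega
  have h2 : (((Ico U (U+(N/D)*D)).filter P).card : ℝ) ≤ (((Ico U (U+N)).filter P).card : ℝ) := by
    exact_mod_cast card_le_card h1
  refine le_trans ?_ ((blocks_eq_ge P D M h U (N/D)).trans h2)
  apply mul_le_mul_of_nonneg_right _ hM
  rw [sub_le_iff_le_add, div_le_iff₀ hD0]
  have h3 := Nat.div_add_mod N D
  have h4 := (Nat.mod_lt N hD).le
  have h5 : (N:ℝ) = D * (N/D : ℕ) + (N % D : ℕ) := by exact_mod_cast h3.symm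
  have h6 : ((N % D : ℕ) : ℝ) ≤ D := by exact_mod_cast h4
  nlinarith

/-- the point attached to a word and a numerator -/
noncomputable def ptw (w : List ℕ) (a : ℕ) : ℝ × ℝ :=
  ((a:ℝ) / (pr w).1, Int.fract (((pr w).2:ℝ) * a / (pr w).1))

theorem D2_sq {p : Ix} (h : D2 p ⊆ Sq) :
    (p.2.1:ℝ) / 2^p.1 + 1 / 2^p.1 ≤ 1 ∧ (p.2.2:ℝ) / 2^p.1 + 1 / 2^p.1 ≤ 1 := by
  have h1 := h (cor_mem p)
  have aux : ∀ k : ℕ, (k:ℝ) / 2^p.1 < 1 → (k:ℝ) / 2^p.1 + 1 / 2^p.1 ≤ 1 := by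
    intro k hk
    rw [div_lt_one (by positivity)] at hk
    rw [← add_div, div_le_one (by positivity)]
    have h2 : k < 2^p.1 := by exact_mod_cast hk
    have h3 : k + 1 ≤ 2^p.1 := h2
    exact_mod_cast h3
  exact ⟨aux _ h1.1.2, aux _ h1.2.2⟩

theorem mem_D2_iff {p : Ix} {x : ℝ × ℝ} : x ∈ D2 p ↔
    x.1 ∈ Set.Ico ((p.2.1:ℝ) / 2^p.1) ((p.2.1:ℝ) / 2^p.1 + 1 / 2^p.1) ∧
    x.2 ∈ Set.Ico ((p.2.2:ℝ) / 2^p.1) ((p.2.2:ℝ) / 2^p.1 + 1 / 2^p.1) := by
  unfold D2 MT.D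
  rw [Set.mem_prod, add_div, add_div]

theorem num_aux {x g : ℝ} (hx : 1000 ≤ x) (hg : 1000 ≤ g) :
    7/8 * (x*g) ≤ (x-2)*(g-6) ∧ (x+2)*(g+3) ≤ 9/8 * (x*g) := by
  have h1 := mul_nonneg (sub_nonneg.mpr hx) (sub_nonneg.mpr hg)
  constructor <;> nlinarith

theorem kron (m K : ℕ) (hm : 1 ≤ m) : ∃ Q₀ : ℕ, ∀ w : List ℕ, (∀ a ∈ w, 2 ≤ a) → (∀ a ∈ w, a ≤ 162) →
    Q₀ ≤ (pr w).1 → ∀ p : Ix, p.1 ≤ K → D2 p ⊆ Sq → ∀ [DecidablePred (fun a : ℕ => ptw w (1+m*a) ∈ D2 p)],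
    7/8 * ((1/2^p.1)^2 * (pr w).1 / m) ≤ (((range (pr w).1).filter (fun a : ℕ => ptw w (1+m*a) ∈ D2 p)).card : ℝ) ∧
    (((range (pr w).1).filter (fun a : ℕ => ptw w (1+m*a) ∈ D2 p)).card : ℝ) ≤ 9/8 * ((1/2^p.1)^2 * (pr w).1 / m) := by
  set T : ℕ := 164 * m * (1000 * 2^K) with hT
  refine ⟨1000 * 2^K * m * (T+1), fun w h2 hA hQ p hpK hp _ => ?_⟩
  classical
  set Q := (pr w).1 with hQdef
  set α := (pr w).2 with hα
  have h2K : 1 ≤ 2^K := Nat.one_le_two_pow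
  have hTpos : 0 < T := by rw [hT]; positivity
  have hQTm : T * m < Q := by
    calc T * m < (T+1) * m := Nat.mul_lt_mul_of_pos_right (Nat.lt_succ_self T) hm
      _ ≤ 1000 * 2^K * ((T+1) * m) := by
          apply Nat.le_mul_of_pos_left
          positivity
      _ = 1000 * 2^K * m * (T+1) := by ring
      _ ≤ Q := hQ
  have hQpos : (0:ℝ) < Q := by
    have : 0 < Q := by omega
    exact_mod_cast this
  have hm0 : (0:ℝ) < m := by exact_mod_cast hm
  have hm1 : (1:ℝ) ≤ m := by exact_mod_cast hm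
  set θ : ℝ := m * α / Q with hθ
  set β : ℝ := α / Q with hβ
  obtain ⟨q, hq1, hq2⟩ := Real.exists_rat_abs_sub_le_and_den_le θ hTpos
  set D := q.den with hDdef
  set h := q.num with hh
  have hD : 0 < D := q.pos
  have hD0 : (0:ℝ) < D := by exact_mod_cast hD
  have hqr : (q:ℝ) = h / D := Rat.cast_def q
  have hcop : IsCoprime (D:ℤ) h := by
    apply IsCoprime.symm
    rw [Int.isCoprime_iff_gcd_eq_one]
    exact q.reduced
  rw [hqr] at hq1
  have hT1 : (0:ℝ) < (T:ℝ) + 1 := by positivity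
  have hDT : (D:ℝ) ≤ T := by exact_mod_cast hq2
  have happ : |θ - h/D| * D^2 ≤ 1 := by
    calc |θ - h/D| * D^2 ≤ 1 / (((T:ℝ) + 1) * D) * D^2 := by gcongr
      _ = D / ((T:ℝ)+1) := by field_simp
      _ ≤ 1 := by
        rw [div_le_one hT1]
        linarith
  have hDlow : (1000 * 2^K : ℝ) ≤ D := by
    have hk0 : ((D * m : ℕ) : ℤ) ≠ 0 := by
      have : D * m ≠ 0 := by positivity
      exact_mod_cast this
    have hklt : |((D * m : ℕ) : ℤ)| < ((pr w).1 : ℤ) := by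
      rw [abs_of_nonneg (by positivity)]
      have : D * m < Q := lt_of_le_of_lt (Nat.mul_le_mul_right m hq2) hQTm
      exact_mod_cast this
    have h3 := bt 162 w h2 hA ((D * m : ℕ) : ℤ) h hk0 hklt
    rw [abs_of_nonneg (show (0:ℤ) ≤ ((D * m : ℕ) : ℤ) by positivity)] at h3
    have h4 : (Q:ℝ) ≤ 164 * (D * m) * |((D:ℝ) * m) * α - h * Q| := by
      have h5 : ((Q:ℤ):ℝ) ≤ (((162 + 2) * ((D * m : ℕ) : ℤ) * |((D * m : ℕ) : ℤ) * (α:ℤ) - h * (Q:ℤ)| : ℤ) : ℝ) := by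
        exact_mod_cast h3
      push_cast at h5
      exact h5
    have h6 : |((D:ℝ) * m) * α - h * Q| ≤ Q / ((T:ℝ)+1) := by
      have e : ((D:ℝ) * m) * α - h * Q = Q * D * (θ - h/D) := by
        rw [hθ]
        field_simp
      rw [e, abs_mul, abs_of_pos (by positivity)]
      calc (Q:ℝ) * D * |θ - h/D| ≤ Q * D * (1 / (((T:ℝ) + 1) * D)) := by gcongr
        _ = Q / ((T:ℝ)+1) := by field_simp
    have h7 : (Q:ℝ) ≤ 164 * (D * m) * (Q / ((T:ℝ)+1)) := by
      refine h4.trans ?_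
      gcongr
    have h8 : (T:ℝ) + 1 ≤ 164 * (D * m) := by
      have e : (164:ℝ) * (D * m) * (Q / ((T:ℝ)+1)) = (164 * (D * m)) / ((T:ℝ)+1) * Q := by ring
      rw [e] at h7
      have h9 : 1 ≤ (164 * ((D:ℝ) * m)) / ((T:ℝ)+1) := by
        by_contra hcon
        push Not at hcon
        have := mul_lt_mul_of_pos_right hcon hQpos
        linarith
      rwa [le_div_iff₀ hT1, one_mul] at h9
    have h9 : (T:ℝ) = 164 * m * (1000 * 2^K) := by
      rw [hT]
      push_cast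
      ring
    rw [h9] at h8
    by_contra hcon
    push Not at hcon
    have := mul_lt_mul_of_pos_left hcon (show (0:ℝ) < 164 * m by positivity)
    linarith
  set r : ℝ := 1 / 2^p.1 with hr
  have hr0 : 0 < r := by rw [hr]; positivity
  have hrK : 1 / 2^K ≤ r := by
    apply one_div_le_one_div_of_le (by positivity)
    exact pow_le_pow_right₀ (by norm_num) hpK
  obtain ⟨hx1, hy1⟩ := D2_sq hp
  set x0 : ℝ := (p.2.1:ℝ) / 2^p.1 with hx0
  set y0 : ℝ := (p.2.2:ℝ) / 2^p.1 with hy0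
  have hx00 : 0 ≤ x0 := by positivity
  have hy00 : 0 ≤ y0 := by positivity
  set tt : ℝ := (x0 * Q - 1) / m with htt
  set X : ℝ := r * Q / m with hX
  have hVtt : ((x0 + r) * Q - 1) / m = tt + X := by
    rw [htt, hX]
    ring
  set U := ⌈tt⌉₊ with hU
  set V := ⌈tt + X⌉₊ with hV
  have hX0 : 0 < X := by positivity
  have hUV : U ≤ V := Nat.ceil_le_ceil (by linarith)
  obtain ⟨N, hN⟩ := Nat.exists_eq_add_of_le hUV
  have htt1 : -1 ≤ tt := by
    rw [htt, le_div_iff₀ hm0]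
    have : 0 ≤ x0 * Q := by positivity
    linarith
  have hU1 : tt ≤ U := Nat.le_ceil _
  have hU2 : (U:ℝ) ≤ tt + 1 := by
    rcases le_or_gt 0 tt with h0 | h0
    · exact (Nat.ceil_lt_add_one h0).le
    · have : U = 0 := Nat.ceil_eq_zero.mpr h0.le
      rw [this]
      push_cast
      linarith
  have hXbig : 1000 * ((T:ℝ) + 1) ≤ X := by
    have h3 : ((1000 * 2^K * m * (T+1) : ℕ) : ℝ) ≤ Q := by exact_mod_cast hQ
    push_cast at h3
    rw [hX, le_div_iff₀ hm0]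
    have h4 : 1 / 2^K * (Q:ℝ) ≤ r * Q := by gcongr
    have h5 : 1 / 2^K * (1000 * 2^K * m * ((T:ℝ)+1)) ≤ 1 / 2^K * (Q:ℝ) := by gcongr
    have e : (1:ℝ) / 2^K * (1000 * 2^K * m * ((T:ℝ)+1)) = 1000 * ((T:ℝ) + 1) * m := by
      field_simp
    rw [e] at h5
    linarith
  have hV1 : tt + X ≤ V := Nat.le_ceil _
  have hV2 : (V:ℝ) ≤ tt + X + 1 := by
    apply (Nat.ceil_lt_add_one _).le
    have : (0:ℝ) ≤ T := by positivity
    linarith
  have hNr : (V:ℝ) = U + N := by exact_mod_cast hN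
  have hN1 : (N:ℝ) ≤ X + 1 := by linarith
  have hN2 : X - 1 ≤ N := by linarith
  have hset : (range Q).filter (fun a : ℕ => ptw w (1+m*a) ∈ D2 p) =
      (Ico U (U+N)).filter (fun i : ℕ => Int.fract (θ*i+β) ∈ Set.Ico y0 (y0+r)) := by
    ext a
    rw [mem_filter, mem_filter, mem_range, mem_Ico, mem_D2_iff, ← hN]
    have e1 : (ptw w (1+m*a)).1 = (1 + m * (a:ℝ)) / Q := by
      unfold ptw
      push_cast
      rfl
    have e2 : (ptw w (1+m*a)).2 = Int.fract (θ*a+β) := by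
      unfold ptw
      simp only
      congr 1
      rw [hθ, hβ]
      push_cast
      ring
    rw [e1, e2]
    have f1 : U ≤ a ↔ x0 ≤ (1 + m * (a:ℝ)) / Q := by
      rw [hU, Nat.ceil_le, htt, div_le_iff₀ hm0, le_div_iff₀ hQpos]
      constructor <;> intro h <;> linarith
    have f2 : a < V ↔ (1 + m * (a:ℝ)) / Q < x0 + r := by
      rw [hV, Nat.lt_ceil, ← hVtt, lt_div_iff₀ hm0, div_lt_iff₀ hQpos]
      constructor <;> intro h <;> linarith
    constructor
    · rintro ⟨_, ⟨h3, h4⟩, h5⟩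
      exact ⟨⟨f1.mpr h3, f2.mpr h4⟩, h5⟩
    · rintro ⟨⟨h3, h4⟩, h5⟩
      refine ⟨?_, ⟨f1.mp h3, f2.mp h4⟩, h5⟩
      have h6 := (f2.mp h4).trans_le hx1
      rw [div_lt_one hQpos] at h6
      have h7 : (a:ℝ) ≤ m * a := by
        exact le_mul_of_one_le_left (Nat.cast_nonneg a) hm1
      have h8 : (a:ℝ) < Q := by linarith
      exact_mod_cast h8
  rw [hset]
  set g : ℝ := r * D with hg
  have hg1 : 1000 ≤ g := by
    calc (1000:ℝ) = 1 / 2^K * (1000 * 2^K) := by field_simp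
      _ ≤ r * D := by gcongr
  set x : ℝ := X / D with hx
  have hx1' : 1000 ≤ x := by
    rw [hx, le_div_iff₀ hD0]
    linarith
  have hXx : X = x * D := by
    rw [hx]
    field_simp
  have hgoal : r^2 * (Q:ℝ) / m = x * g := by
    have : r^2 * (Q:ℝ) / m = r * X := by
      rw [hX]
      ring
    rw [this, hXx, hg]
    ring
  have hD1 : (1:ℝ) ≤ D := by exact_mod_cast hD
  rw [hgoal]
  constructor
  · have h3 := blocks_ge (fun i : ℕ => Int.fract (θ*i+β) ∈ Set.Ico y0 (y0+r)) D hD (r*D-6) (by linarith)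
      (fun u => block_ge θ β h D hD hcop happ u y0 r hr0.le hy00 hy1) U N
    refine le_trans ?_ h3
    have h4 : x - 2 ≤ (N:ℝ)/D - 1 := by
      have h5 : (X - 1)/D ≤ (N:ℝ)/D := by gcongr
      have h6 : (X-1)/D = x - 1/D := by rw [hx]; ring
      have h7 : 1/(D:ℝ) ≤ 1 := by
        rw [div_le_one hD0]
        exact hD1
      linarith
    calc 7/8 * (x*g) ≤ (x-2)*(g-6) := (num_aux hx1' hg1).1
      _ ≤ _ := by
        apply mul_le_mul_of_nonneg_right h4
        linarith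
  · have h3 := blocks_le (fun i : ℕ => Int.fract (θ*i+β) ∈ Set.Ico y0 (y0+r)) D hD (r*D+3) (by positivity)
      (fun u => block_le θ β h D hD hcop happ u y0 r hr0.le) U N
    refine h3.trans ?_
    have h4 : (N:ℝ)/D + 1 ≤ x + 2 := by
      have h5 : (N:ℝ)/D ≤ (X + 1)/D := by gcongr
      have h6 : (X+1)/D = x + 1/D := by rw [hx]; ring
      have h7 : 1/(D:ℝ) ≤ 1 := by
        rw [div_le_one hD0]
        exact hD1
      linarith
    calc _ ≤ (x+2)*(g+3) := by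
          apply mul_le_mul_of_nonneg_right h4
          positivity
      _ ≤ 9/8 * (x*g) := (num_aux hx1' hg1).2

end Pool.Agent.R331.UL
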