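import Pool.Agent.R331.UL.FullU

set_option autoImplicit false

/-!
Near the special rational points the product stays large.
-/

namespace Pool.Agent.R331.UL

open Filter Topology
open scoped ENNReal

/-- distance to the nearest integer -/
noncomputable def nd (x : ℝ) : ℝ := |x - round x|

theorem point_bound (w : List ℕ) (h2 : ∀ a ∈ w, 2 ≤ a) (hA : ∀ a ∈ w, a ≤ 162) {a : ℕ}
    (hc : Nat.Coprime a (pr w).1) {x y : ℝ} (hx : |x - (ptw w a).1| < 1/20/((pr w).1:ℝ)^2)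
    (hy : |y - (ptw w a).2| < 1/20/((pr w).1:ℝ)^2) {q : ℕ} (hq1 : 1 ≤ q) (hqQ : q < (pr w).1) :
    (19/20)^2 / (164 * ((pr w).1:ℝ)) ≤ nd (q*x) * nd (q*y) := by
  have hcop := pr_coprime w
  set Q := (pr w).1 with hQ
  set α := (pr w).2 with hα
  have hQ1 : 1 ≤ Q := by omega
  have hQ0 : (0:ℝ) < Q := by exact_mod_cast hQ1
  have hq0 : (0:ℝ) < q := by exact_mod_cast hq1
  have hqQr : (q:ℝ) ≤ Q := by exact_mod_cast hqQ.le
  have e1 : (ptw w a).1 = (a:ℝ)/Q := rfl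
  have e2 : (ptw w a).2 = (α:ℝ) * a / Q - ⌊(α:ℝ) * a / Q⌋ := rfl
  rw [e1] at hx
  rw [e2] at hy
  set F0 : ℤ := ⌊(α:ℝ) * a / Q⌋ with hF0
  set N1 : ℤ := round (q*x) with hN1
  set N2 : ℤ := round (q*y) with hN2
  set k : ℤ := (q:ℤ) * a - N1 * Q with hk
  set j : ℤ := (q:ℤ) * (α * a) - (q * F0 + N2) * Q with hj
  have hk0 : k ≠ 0 := by
    intro h
    have h1 : (Q:ℤ) ∣ (q:ℤ) * a := ⟨N1, by rw [hk] at h; linarith⟩
    have h3 : Q ∣ q * a := by exact_mod_cast h1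
    have h4 : Q ∣ q := hc.symm.dvd_of_dvd_mul_right h3
    have := Nat.le_of_dvd (by omega) h4
    omega
  have hj0 : j ≠ 0 := by
    intro h
    have h1 : (Q:ℤ) ∣ (q:ℤ) * (α * a) := ⟨q * F0 + N2, by rw [hj] at h; linarith⟩
    have h3 : Q ∣ q * (α * a) := by exact_mod_cast h1
    have h5 : Nat.Coprime Q (α * a) := Nat.Coprime.mul_right hcop hc.symm
    have h4 : Q ∣ q := h5.dvd_of_dvd_mul_right h3
    have := Nat.le_of_dvd (by omega) h4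
    omega
  have hk1 : (1:ℝ) ≤ |(k:ℝ)| := by exact_mod_cast Int.one_le_abs hk0
  have hj1 : (1:ℝ) ≤ |(j:ℝ)| := by exact_mod_cast Int.one_le_abs hj0
  have hsmall : ∀ u v : ℝ, |u - v| < 1/20/(Q:ℝ)^2 → |(q:ℝ)*u - q*v| ≤ 1/20/Q := by
    intro u v h
    rw [← mul_sub, abs_mul, abs_of_pos hq0]
    calc (q:ℝ) * |u - v| ≤ Q * (1/20/(Q:ℝ)^2) := by
          apply mul_le_mul hqQr h.le (abs_nonneg _) hQ0.le
      _ = 1/20/Q := by field_simp
  have hndx : 19/20 * |(k:ℝ)| / Q ≤ nd (q*x) := by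
    have h1 := hsmall _ _ hx
    have h3 : |(q:ℝ) * (a/Q) - N1| = |(k:ℝ)| / Q := by
      rw [← abs_of_pos hQ0, ← abs_div, abs_of_pos hQ0]
      congr 1
      rw [hk]
      push_cast
      field_simp
    have h4 : |(q:ℝ) * (a/Q) - N1| ≤ |(q:ℝ) * x - N1| + |(q:ℝ)*x - q*(a/Q)| := by
      have : (q:ℝ) * (a/Q) - N1 = ((q:ℝ) * x - N1) - ((q:ℝ)*x - q*(a/Q)) := by ring
      rw [this]
      exact abs_sub _ _
    have h5 : 1/20/(Q:ℝ) ≤ 1/20 * |(k:ℝ)| / Q := by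
      gcongr
      linarith
    have h6 : nd (q*x) = |(q:ℝ) * x - N1| := rfl
    rw [h6]
    have h7 : 19/20 * |(k:ℝ)| / Q = |(k:ℝ)| / Q - 1/20 * |(k:ℝ)| / Q := by ring
    linarith
  have hndy : 19/20 * |(j:ℝ)| / Q ≤ nd (q*y) := by
    have h1 := hsmall _ _ hy
    have h3 : |(q:ℝ) * ((α:ℝ) * a / Q - F0) - N2| = |(j:ℝ)| / Q := by
      rw [← abs_of_pos hQ0, ← abs_div, abs_of_pos hQ0]
      congr 1
      rw [hj]
      push_cast
      field_simp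
      ring
    have h4 : |(q:ℝ) * ((α:ℝ) * a / Q - F0) - N2| ≤ |(q:ℝ) * y - N2| + |(q:ℝ)*y - q*((α:ℝ) * a / Q - F0)| := by
      have : (q:ℝ) * ((α:ℝ) * a / Q - F0) - N2 = ((q:ℝ) * y - N2) - ((q:ℝ)*y - q*((α:ℝ) * a / Q - F0)) := by ring
      rw [this]
      exact abs_sub _ _
    have h5 : 1/20/(Q:ℝ) ≤ 1/20 * |(j:ℝ)| / Q := by
      gcongr
      linarith
    have h6 : nd (q*y) = |(q:ℝ) * y - N2| := rfl
    rw [h6]
    have h7 : 19/20 * |(j:ℝ)| / Q = |(j:ℝ)| / Q - 1/20 * |(j:ℝ)| / Q := by ring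
    linarith
  have hkj : (Q:ℝ) ≤ 164 * |(k:ℝ)| * |(j:ℝ)| := by
    by_cases hkQ : |k| < (Q:ℤ)
    · have h1 := bt 162 w h2 hA k (q * F0 + N2 - α * N1) hk0 hkQ
      have e : k * ((pr w).2:ℤ) - (q * F0 + N2 - α * N1) * ((pr w).1:ℤ) = j := by
        rw [hk, hj]
        ring
      rw [e] at h1
      have h3 : ((Q:ℤ):ℝ) ≤ (((162 + 2) * |k| * |j| : ℤ) : ℝ) := by exact_mod_cast h1
      push_cast at h3
      exact h3
    · push Not at hkQ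
      have h1 : (Q:ℝ) ≤ |(k:ℝ)| := by exact_mod_cast hkQ
      calc (Q:ℝ) ≤ |(k:ℝ)| := h1
        _ ≤ 164 * |(k:ℝ)| := by linarith
        _ = 164 * |(k:ℝ)| * 1 := (mul_one _).symm
        _ ≤ _ := by gcongr
  calc (19/20)^2 / (164 * (Q:ℝ)) = (19/20)^2 / (164 * (Q:ℝ)^2) * Q := by field_simp
    _ ≤ (19/20)^2 / (164 * (Q:ℝ)^2) * (164 * |(k:ℝ)| * |(j:ℝ)|) := by gcongr
    _ = (19/20 * |(k:ℝ)| / Q) * (19/20 * |(j:ℝ)| / Q) := by field_simp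
    _ ≤ _ := by
      apply mul_le_mul hndx hndy (by positivity)
      exact abs_nonneg _

end Pool.Agent.R331.UL
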